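import Pool.Agent.Lib.MP_65c801_co.W.St

/-! Doubly degenerate four-cycles and the main inequality with the new incidence bound. -/

namespace Pool.Agent.Lib.MP_65c801_co.W

open Finset Classical T U

namespace CoreN

lemma arith {L D σ P M k Y ν S c u m e g : ℝ} (hL : 4096 ≤ L) (P1 : 1 ≤ P) (σ0 : 0 ≤ σ)
    (hk : σ * P ≤ k) (Y0 : 0 ≤ Y) (M0 : 0 < M) (MD : M ≤ D)
    (hY : 16 * L ^ 8 * D ^ 3 * k ^ 4 ≤ Y ^ 2 * M)
    (ν0 : 0 < ν) (Sσ : S ≤ σ * ν) (c0 : 0 < c) (cD : c ≤ D) (u0 : 0 < u)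
    (cu : c * u ≤ 2 * D * k) (m0 : 0 < m) (mS : m ≤ S) (g0 : 0 ≤ g)
    (gm : g * m ≤ D * S) (h : ν * c * u ≤ 2 * L * m * e)
    (hc : e ≤ L ^ 4 * g ∨ e ≤ 4 * P * u ∨ e ^ 4 * M ≤ L ^ 4 * P ^ 4 * u ^ 2 * g ^ 3) :
    c ^ 2 * u ≤ 2 * L ^ 5 * D ^ 2 * σ + Y := by
  have D0 : 0 ≤ D := by linarith
  have L0 : 0 ≤ L := by linarith
  have L1 : 1 ≤ L := by linarith
  have P0 : 0 ≤ P := by linarith
  have k0 : 0 ≤ k := le_trans (by positivity) hk
  have gs : g * m ≤ D * (σ * ν) := gm.trans (by gcongr)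
  have ms : m ≤ σ * ν := mS.trans Sσ
  have t0 : 0 ≤ 2 * L ^ 5 * D ^ 2 * σ := by positivity
  have fin : (c ^ 2 * u) ^ 2 * M ≤ 16 * L ^ 8 * D ^ 3 * k ^ 4 →
      c ^ 2 * u ≤ 2 * L ^ 5 * D ^ 2 * σ + Y := fun h1 => by
    have h2 : c ^ 2 * u ≤ Y :=
      (abs_le_of_sq_le_sq' (le_of_mul_le_mul_right (h1.trans hY) M0) Y0).2
    linarith
  rcases hc with hc | hc | hc
  · have h1 : ν * (c * u) ≤ ν * (2 * L ^ 5 * D * σ) := by
      calc ν * (c * u) = ν * c * u := by ring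
        _ ≤ 2 * L * m * e := h
        _ ≤ 2 * L * m * (L ^ 4 * g) := by gcongr
        _ = 2 * L ^ 5 * (g * m) := by ring
        _ ≤ 2 * L ^ 5 * (D * (σ * ν)) := by gcongr
        _ = _ := by ring
    have h2 : c * u ≤ 2 * L ^ 5 * D * σ := le_of_mul_le_mul_left h1 ν0
    have h3 : c ^ 2 * u ≤ 2 * L ^ 5 * D ^ 2 * σ := by
      calc c ^ 2 * u = c * (c * u) := by ring
        _ ≤ D * (2 * L ^ 5 * D * σ) := by gcongr
        _ = _ := by ring
    linarith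
  · have h1 : (ν * u) * c ≤ (ν * u) * (8 * L * k) := by
      calc (ν * u) * c = ν * c * u := by ring
        _ ≤ 2 * L * m * e := h
        _ ≤ 2 * L * (σ * ν) * (4 * P * u) := by
          refine le_trans (mul_le_mul_of_nonneg_left hc (by positivity)) ?_
          gcongr
        _ = (ν * u) * (8 * L * (σ * P)) := by ring
        _ ≤ _ := by gcongr
    have h2 : c ≤ 8 * L * k := le_of_mul_le_mul_left h1 (by positivity)
    have h3 : 4096 * L ^ 2 ≤ L ^ 8 := cpw L1 hL (by norm_num)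
    have h4 : 256 * L ^ 2 ≤ 16 * L ^ 8 := by linarith [pow_nonneg L0 2]
    refine fin ?_
    calc (c ^ 2 * u) ^ 2 * M = c ^ 2 * (c * u) ^ 2 * M := by ring
      _ ≤ (8 * L * k) ^ 2 * (2 * D * k) ^ 2 * D := by gcongr
      _ = 256 * L ^ 2 * (D ^ 3 * k ^ 4) := by ring
      _ ≤ 16 * L ^ 8 * (D ^ 3 * k ^ 4) := by gcongr
      _ = _ := by ring
  · have h1 : (ν ^ 4 * u ^ 2) * ((c ^ 2 * u) ^ 2 * M) ≤
        (ν ^ 4 * u ^ 2) * (16 * L ^ 8 * D ^ 3 * k ^ 4) := by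
      calc (ν ^ 4 * u ^ 2) * ((c ^ 2 * u) ^ 2 * M) = (ν * c * u) ^ 4 * M := by ring
        _ ≤ (2 * L * m * e) ^ 4 * M := by gcongr
        _ = 16 * L ^ 4 * m ^ 4 * (e ^ 4 * M) := by ring
        _ ≤ 16 * L ^ 4 * m ^ 4 * (L ^ 4 * P ^ 4 * u ^ 2 * g ^ 3) := by gcongr
        _ = 16 * L ^ 8 * u ^ 2 * P ^ 4 * (m * (g * m) ^ 3) := by ring
        _ ≤ 16 * L ^ 8 * u ^ 2 * P ^ 4 * (σ * ν * (D * (σ * ν)) ^ 3) := by gcongr
        _ = (ν ^ 4 * u ^ 2) * (16 * L ^ 8 * D ^ 3 * (σ * P) ^ 4) := by ring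
        _ ≤ _ := by gcongr
    exact fin (le_of_mul_le_mul_left h1 (by positivity))

end CoreN

theorem stemN : StemNS := by
  intro V _ c x L D σ P M k Y L0 c1 cD cL cs P1 σ0 hk Y0 M0 MD hY
    ⟨K, H, κ, Gs, gr, mm, ν, S, ok, hGs, ν0, _, Sσ, SL, m1, mS, hst, inj, dom⟩
  have L1 : 1 ≤ L := by omega
  have hX : (4096:ℝ) ≤ L := by exact_mod_cast L0
  have c0 : ∀ y, 0 ≤ c y := fun y => (c1 y).elim (fun e => e.ge) fun e => by linarith
  have m0 : ∀ o, 0 ≤ mm o := fun o => (m1 o).elim (fun e => e.ge) fun e => by linarith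
  have L1' : (1:ℝ) ≤ L := by exact_mod_cast L1
  have D0 : 0 ≤ D := (c0 x).trans (cD x)
  set B := 2 * (L:ℝ) ^ 5 * D ^ 2 * σ + Y with hB
  have B0 : 0 ≤ B := by positivity
  set U : ℕ → V → Prop := fun j y => y ≠ x ∧ (2:ℝ) ^ j ≤ c y ∧ c y < 2 * 2 ^ j with hU
  have cls : ∀ j, ((2:ℝ) ^ j) ^ 2 * cnt (U j) ≤ B := by
    intro j
    rcases cnt_zero_or (U j) with e | e
    · rw [e, mul_zero]; exact B0
    obtain ⟨y0, hy0⟩ := exists_of_cnt_pos (lt_of_lt_of_le one_pos e)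
    set O : ℕ → Om V → Prop := fun i o => (2:ℝ) ^ i ≤ mm o ∧ mm o < 2 * 2 ^ i with hO
    set N : ℕ → V × Om V → Prop := fun i z =>
      U j z.1 ∧ O i z.2 ∧ H (gr z.2).1 z.1 ∧ κ (gr z.2).1 z.1 = (gr z.2).2 with hN
    have n0 : ∀ y, (if U j y then (1:ℝ) else 0) * (ν * 2 ^ j) ≤
        ∑ o, ∑ i ∈ range L, 2 * 2 ^ i * (if N i (y, o) then (1:ℝ) else 0) := fun y => by
      have nn : ∀ o, ∀ i ∈ range L, 0 ≤ 2 * 2 ^ i * (if N i (y, o) then (1:ℝ) else 0) :=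
        fun o i _ => by split_ifs <;> positivity
      by_cases hy : U j y
      · rw [if_pos hy, one_mul]
        refine (le_trans (by gcongr; exact hy.2.1) (dom y hy.1)).trans (sum_le_sum fun o _ => ?_)
        by_cases g : H (gr o).1 y ∧ κ (gr o).1 y = (gr o).2
        · rw [if_pos g]
          rcases m1 o with e1 | e1
          · exact e1.le.trans (sum_nonneg (nn o))
          obtain ⟨i, hi, h1, h2⟩ := dyadic _ L e1 ((mS o).trans_lt SL)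
          refine le_trans ?_ (single_le_sum (nn o) (mem_range.2 hi))
          rw [if_pos ⟨hy, ⟨h1, h2⟩, g⟩, mul_one]
          exact h2.le
        · rw [if_neg g]
          exact sum_nonneg (nn o)
      · rw [if_neg hy, zero_mul]
        exact sum_nonneg fun o _ => sum_nonneg (nn o)
    have n1 : ∑ _i ∈ range L, cnt (U j) * (ν * 2 ^ j) / L ≤
        ∑ i ∈ range L, 2 * 2 ^ i * cnt (N i) := by
      rw [sum_const, card_range, nsmul_eq_mul, mul_div_cancel₀ _ (by positivity), cnt_eq_sum,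
        sum_mul]
      refine le_trans (sum_le_sum fun y _ => le_trans (le_of_eq (by congr)) (n0 y)) (le_of_eq ?_)
      rw [← Fintype.sum_prod_type' , sum_comm]
      refine sum_congr rfl fun i _ => ?_
      rw [cnt_eq_sum, mul_sum]
      exact sum_congr rfl fun z _ => by congr
    obtain ⟨i, -, n2⟩ := exists_le_of_sum_le (nonempty_range_iff.2 (by omega)) n1
    rw [div_le_iff₀ (by positivity)] at n2
    have pos : 0 < cnt (N i) := by
      have : 0 < cnt (U j) * (ν * 2 ^ j) := by positivity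
      by_contra g
      have : cnt (N i) = 0 := le_antisymm (not_lt.1 g) (cnt_nonneg _)
      rw [this] at n2
      linarith
    obtain ⟨z0, hz0⟩ := exists_of_cnt_pos pos
    have ne : ∀ o, O i o → mm o ≠ 0 := fun o g => (lt_of_lt_of_le (by positivity) g.1).ne'
    set G : Finset (V × K) := (univ.filter (O i)).image gr with hG
    have gm : (G.card:ℝ) * 2 ^ i ≤ D * S := by
      refine le_trans ?_ ((cnt_mul_le_sum (q := O i) mm (fun o g => g.1) m0).trans hst)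
      have : (G.card:ℝ) ≤ cnt (O i) := by
        unfold cnt
        exact_mod_cast card_image_le.trans (le_of_eq (by congr))
      gcongr
    have n3 : cnt (N i) ≤ ed (fun a y => H a y ∧ (a, κ a y) ∈ G ∧ U j y) := by
      refine cnt_inj (fun z : V × Om V => ((gr z.2).1, z.1)) (fun z hz => ?_) fun z w hz hw g => ?_
      · refine ⟨hz.2.2.1, ?_, hz.1⟩
        show ((gr z.2).1, κ (gr z.2).1 z.1) ∈ G
        rw [hz.2.2.2]
        exact mem_image_of_mem _ (mem_filter.2 ⟨mem_univ _, hz.2.1⟩)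
      · obtain ⟨g1, g2⟩ := Prod.mk.inj g
        exact Prod.ext g2 (inj _ _ (ne _ hz.2.1) (ne _ hw.2.1)
          (Prod.ext g1 (by rw [← hz.2.2.2, ← hw.2.2.2, g1, g2])))
    have cu : (2:ℝ) ^ j * cnt (U j) ≤ 2 * D * k := by
      rw [mul_comm]
      exact (cnt_mul_le_sum c (fun y hy => hy.2.1) c0).trans cs
    refine CoreN.arith hX P1 σ0 hk Y0 M0 MD hY ν0 Sσ (by positivity) (hy0.2.1.trans (cD y0))
      (by linarith) cu (by positivity) (hz0.2.1.1.trans (mS _)) (Nat.cast_nonneg _) gm ?_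
      (ok G (U j) _ (fun γ hγ => by
        obtain ⟨o, ho, rfl⟩ := mem_image.1 hγ
        exact hGs o (ne o (mem_filter.1 ho).2)) rfl)
    calc ν * 2 ^ j * cnt (U j) = cnt (U j) * (ν * 2 ^ j) := by ring
      _ ≤ 2 * 2 ^ i * ed (fun a y => H a y ∧ (a, κ a y) ∈ G ∧ U j y) * L :=
        n2.trans (by gcongr)
      _ = _ := by ring
  calc ∑ y, (if y = x then 0 else c y ^ 2)
      ≤ ∑ y, ∑ j ∈ range L, (if U j y then (1:ℝ) else 0) * (4 * ((2:ℝ) ^ j) ^ 2) := by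
        refine Finset.sum_le_sum fun y _ => ?_
        have nn : ∀ j ∈ range L, 0 ≤ (if U j y then (1:ℝ) else 0) * (4 * ((2:ℝ) ^ j) ^ 2) :=
          fun j _ => by split_ifs <;> positivity
        split_ifs with e
        · exact Finset.sum_nonneg nn
        rcases c1 y with e1 | e1
        · exact le_trans (by rw [e1]; norm_num) (Finset.sum_nonneg nn)
        obtain ⟨j, hj, h1, h2⟩ := dyadic _ L e1 (cL y)
        refine le_trans ?_ (Finset.single_le_sum nn (mem_range.2 hj))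
        rw [if_pos ⟨e, h1, h2⟩]
        nlinarith [c0 y]
    _ = ∑ j ∈ range L, 4 * (((2:ℝ) ^ j) ^ 2 * cnt (U j)) := by
        rw [Finset.sum_comm]
        refine Finset.sum_congr rfl fun j _ => ?_
        have : cnt (U j) = ∑ y, if U j y then (1:ℝ) else 0 := by
          rw [cnt_eq_sum]; exact Finset.sum_congr rfl fun y _ => by congr
        rw [← Finset.sum_mul, this]; ring
    _ ≤ ∑ _j ∈ range L, 4 * B := Finset.sum_le_sum fun j _ => by linarith [cls j]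
    _ = _ := by simp only [sum_const, card_range, nsmul_eq_mul]; ring

namespace CoreN

variable {V K : Type} [Fintype V]

lemma dd (hT : StemNS) (Γ : V → V → Prop) (k1 k2 : V → V → K) {L : ℕ} {D σ P M k Y n : ℝ}
    (L1 : 4096 ≤ L) (cb : (Fintype.card V : ℝ) ^ 3 < 2 ^ L) (cn : (Fintype.card V : ℝ) ≤ n)
    (h1 : ∀ a u, cnt (fun x => Γ a x ∧ k1 a x = u) ≤ k)
    (h2 : ∀ a u, cnt (fun x => Γ a x ∧ k2 a x = u) ≤ k) (hD : ∀ x, cnt (fun a => Γ a x) ≤ D)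
    (D0 : 0 ≤ D) (P1 : 1 ≤ P) (σ0 : 0 ≤ σ) (hk : σ * P ≤ k) (Y0 : 0 ≤ Y)
    (M0 : 0 < M) (MD : M ≤ D) (hY : 16 * (L:ℝ) ^ 8 * D ^ 3 * k ^ 4 ≤ Y ^ 2 * M)
    (st : ∀ x, StemN (cc Γ k1 k2 x) x L D σ P M) :
    ∑ x, ∑ y, cc Γ k1 k2 x y ^ 2 ≤
      D * ed Γ + n * (4 * L * (2 * (L:ℝ) ^ 5 * D ^ 2 * σ + Y)) := by
  have k0 : 0 ≤ k := le_trans (by positivity) hk
  have le : ∀ x y, cc Γ k1 k2 x y ≤ cnt (fun a => Γ a x) := fun x y => cnt_mono fun a g => g.1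
  have pt : ∀ x, ∑ y, cc Γ k1 k2 x y ^ 2 ≤
      D * cnt (fun a => Γ a x) + 4 * L * (2 * (L:ℝ) ^ 5 * D ^ 2 * σ + Y) := fun x => by
    have s1 : ∑ y, cc Γ k1 k2 x y ≤ 2 * D * k := by
      unfold cc
      rw [← cnt_prod (fun z : V × V => Γ z.2 x ∧ Γ z.2 z.1 ∧
        (k1 z.2 x = k1 z.2 z.1 ∨ k2 z.2 x = k2 z.2 z.1)), ← cnt_swap]
      refine (cnt_pair_le (q := fun a => Γ a x) (K := 2 * k) (fun a y g => g.1) fun a _ =>
        (cnt_le_add (q := fun y => Γ a y ∧ k1 a y = k1 a x) (r := fun y => Γ a y ∧ k2 a y = k2 a x)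
          fun y g => g.2.2.imp (fun e => ⟨g.2.1, e.symm⟩) fun e => ⟨g.2.1, e.symm⟩).trans
          (by linarith [h1 a (k1 a x), h2 a (k2 a x)])).trans ?_
      nlinarith [hD x]
    have s2 := hT V (cc Γ k1 k2 x) x L D σ P M k Y L1 (fun y => cnt_zero_or _)
      (fun y => (le x y).trans (hD x)) (fun y => lt1 cb _) s1 P1 σ0 hk Y0 M0 MD hY (st x)
    have s3 : ∑ y, cc Γ k1 k2 x y ^ 2 = cc Γ k1 k2 x x ^ 2 +
        ∑ y, (if y = x then 0 else cc Γ k1 k2 x y ^ 2) := by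
      rw [← Finset.sum_ite_eq_of_mem' univ x (fun y => cc Γ k1 k2 x y ^ 2) (mem_univ x),
        ← Finset.sum_add_distrib]
      exact Finset.sum_congr rfl fun y _ => by split_ifs <;> simp
    have s4 : cc Γ k1 k2 x x ^ 2 ≤ D * cnt (fun a => Γ a x) := by
      rw [sq]; exact mul_le_mul ((le x x).trans (hD x)) (le x x) (cnt_nonneg _) D0
    linarith
  refine (Finset.sum_le_sum fun x _ => pt x).trans ?_
  rw [Finset.sum_add_distrib, ← Finset.mul_sum, ← cnt_prod' (fun e : V × V => Γ e.1 e.2),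
    Finset.sum_const, card_univ, nsmul_eq_mul]
  gcongr

/-- the final inequality; `Z = L ^ 9 * X ^ 4 * N` -/
lemma num {L X N D σ k ze Y E W Z M : ℝ} (hL : 4096 ≤ L) (X1 : 1 ≤ X) (N0 : 0 < N) (D0 : 0 < D)
    (σ0 : 0 < σ) (k0 : 0 < k) (ze0 : 0 ≤ ze) (Y0 : 0 ≤ Y) (hZ : Z = L ^ 9 * X ^ 4 * N)
    (b1 : Z * σ ≤ D ^ 2) (b2 : Z ≤ D ^ 2) (b3 : Z ^ 2 * k ^ 3 ≤ D ^ 5)
    (M0 : 0 < M) (b4 : Z ^ 2 * k ^ 4 ≤ D ^ 5 * M) (hz : ze ^ 2 * D = 2 * k)
    (hY : Y ^ 2 * M = 16 * L ^ 8 * D ^ 3 * k ^ 4) (hE : N * D ≤ X * E)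
    (h1 : E ^ 4 ≤ N ^ 4 * (18 * L ^ 2 * (W + W)))
    (h2 : W = 26 * ze * k * D * E + 12 * (D * E + N * (4 * L * (2 * L ^ 5 * D ^ 2 * σ + Y)))) :
    False := by
  have L0 : 0 < L := by linarith
  have L1 : 1 ≤ L := by linarith
  have X0 : 0 < X := by linarith
  have Z0 : 0 < Z := by rw [hZ]; positivity
  have E0 : 0 < E := (mul_pos_iff_of_pos_left X0).1 (lt_of_lt_of_le (by positivity) hE)
  have t1 : Z * (ze * k) ≤ 2 * D ^ 2 := by
    refine (abs_le_of_sq_le_sq' ?_ (by positivity)).2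
    refine le_of_mul_le_mul_right ?_ D0
    calc _ = Z ^ 2 * k ^ 2 * (ze ^ 2 * D) := by ring
      _ = 2 * (Z ^ 2 * k ^ 3) := by rw [hz]; ring
      _ ≤ 4 * D ^ 5 := by linarith [pow_pos D0 5]
      _ = _ := by ring
  have t2 : Z * Y ≤ 4 * L ^ 4 * D ^ 4 := by
    refine (abs_le_of_sq_le_sq' ?_ (by positivity)).2
    refine le_of_mul_le_mul_right ?_ M0
    calc _ = Z ^ 2 * (Y ^ 2 * M) := by ring
      _ = 16 * L ^ 8 * D ^ 3 * (Z ^ 2 * k ^ 4) := by rw [hY]; ring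
      _ ≤ 16 * L ^ 8 * D ^ 3 * (D ^ 5 * M) := by gcongr
      _ = _ := by ring
  have p2 : 1 ≤ L ^ 5 * X := one_le_mul_of_one_le_of_one_le (one_le_pow₀ L1) X1
  have p3 : 4096 * (L ^ 5 * X) ≤ L ^ 6 * X := by
    rw [← mul_assoc]
    exact mul_le_mul_of_nonneg_right (cpw L1 hL le_rfl) X0.le
  have a3 : Z * W ≤ 97 * (L ^ 6 * X) * (E * D ^ 3) := by
    have q : 0 < E * D ^ 3 := by positivity
    have e1 : Z * (26 * ze * k * D * E) ≤ 52 * (E * D ^ 3) :=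
      calc _ = 26 * (D * E) * (Z * (ze * k)) := by ring
        _ ≤ 26 * (D * E) * (2 * D ^ 2) := by gcongr
        _ = _ := by ring
    have e2 : Z * (D * E) ≤ E * D ^ 3 :=
      calc _ ≤ D ^ 2 * (D * E) := by gcongr
        _ = _ := by ring
    have e3 : Z * (N * (8 * L ^ 6 * D ^ 2 * σ)) ≤ 8 * (L ^ 6 * X * (E * D ^ 3)) :=
      calc _ = 8 * L ^ 6 * D * (N * D) * (Z * σ) := by ring
        _ ≤ 8 * L ^ 6 * D * (X * E) * D ^ 2 := by gcongr
        _ = _ := by ring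
    have e4 : Z * (N * (4 * L * Y)) ≤ 16 * (L ^ 5 * X * (E * D ^ 3)) :=
      calc _ = 4 * L * N * (Z * Y) := by ring
        _ ≤ 4 * L * N * (4 * L ^ 4 * D ^ 4) := by gcongr
        _ = 16 * L ^ 5 * D ^ 3 * (N * D) := by ring
        _ ≤ 16 * L ^ 5 * D ^ 3 * (X * E) := by gcongr
        _ = _ := by ring
    have e5 := mul_le_mul_of_nonneg_right p2 q.le
    have e7 := mul_le_mul_of_nonneg_right p3 q.le
    have e6 : Z * W = Z * (26 * ze * k * D * E) + 12 * (Z * (D * E)) +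
        12 * (Z * (N * (8 * L ^ 6 * D ^ 2 * σ))) + 12 * (Z * (N * (4 * L * Y))) := by
      rw [h2]; ring
    rw [e6, mul_assoc 97]
    rw [mul_assoc 4096] at e7
    linarith
  have a4 : Z * E ^ 3 ≤ 3492 * L ^ 8 * X * N ^ 4 * D ^ 3 := by
    refine le_of_mul_le_mul_left ?_ E0
    calc _ = Z * E ^ 4 := by ring
      _ ≤ Z * (N ^ 4 * (18 * L ^ 2 * (W + W))) := by gcongr
      _ = 36 * L ^ 2 * N ^ 4 * (Z * W) := by ring
      _ ≤ 36 * L ^ 2 * N ^ 4 * (97 * (L ^ 6 * X) * (E * D ^ 3)) := by gcongr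
      _ = _ := by ring
  have a5 : L ^ 9 * (X ^ 4 * N ^ 4 * D ^ 3) ≤ 3492 * L ^ 8 * (X ^ 4 * N ^ 4 * D ^ 3) :=
    calc _ = Z * (N * D) ^ 3 := by rw [hZ]; ring
      _ ≤ Z * (X * E) ^ 3 := by gcongr
      _ = X ^ 3 * (Z * E ^ 3) := by ring
      _ ≤ X ^ 3 * (3492 * L ^ 8 * X * N ^ 4 * D ^ 3) := by gcongr
      _ = _ := by ring
  have a6 := le_of_mul_le_mul_right a5 (by positivity)
  have e2 : 4096 * L ^ 8 ≤ L ^ 9 := cpw L1 hL le_rfl
  linarith [pow_pos L0 8]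

end CoreN

theorem coreN (hI : IdS) (hG : SignS) (hS : SideS) (hT : StemNS) : CoreNS := by
  intro V α K _ _ h Γ lab k1 k2 S L N X P d σ M hn hi S0 L0 cb cN N0 X1 P1 Pd M0 hM nm hE hl tb
    dA dX cov c1 c2 c3 s1 s2
  obtain ⟨s, ps, hz⟩ := hG V α h Γ lab S hn hi S0 hl
  have L1 : 1 ≤ L := by omega
  obtain ⟨c4, k33⟩ := hI V Γ lab s L ps L1 tb
  have hX : (4096:ℝ) ≤ L := by exact_mod_cast L0
  have P0 : 0 < P := by linarith
  have d0 : 0 < d := by linarith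
  have σ0 : 0 < σ := (mul_pos_iff_of_pos_right P0).1 (M0.trans_le hM)
  have cv : ∀ a x y, Γ a x → Γ a y → s a x y = 0 → k1 a x = k1 a y ∨ k2 a x = k2 a y :=
    fun a x y g g' e => cov a x y g g' (hz a x y e).1 (hz a x y e).2.1 (hz a x y e).2.2
  have k0 : 0 < σ * P := by positivity
  have D0 : 0 < d * σ := by positivity
  set ze := Real.sqrt (2 * (σ * P) / (d * σ)) with hze
  have ze0 : 0 < ze := Real.sqrt_pos.2 (by positivity)
  have ze1 : ze ^ 2 * (d * σ) = 2 * (σ * P) := by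
    rw [hze, Real.sq_sqrt (by positivity), div_mul_cancel₀ _ D0.ne']
  have z1 := hS V K Γ _ _ k1 k2 _ _ _ k33 cv c1 c2 (fun x c _ => le_trans (cnt_mono fun a g =>
    ⟨g.1, g.2.symm⟩) ((c3 x (lab c x)).trans (by linarith))) dX ze0 k0 ze1.ge
  have z2 := hS V ℕ (fun x a => Γ a x) (fun x a b => lab a x = lab b x)
    (fun a x y => s a x y = 0) (fun x a => lab a x) (fun x a => lab a x) _ _ _
    (fun x y z a b c g1 g2 g3 g4 g5 g6 g7 g8 g9 x1 x2 x3 y1 y2 y3 z1 z2 z3 a1 a2 a3 b1 b2 b3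
      c1 c2 c3 => k33 a b c x y z g1 g4 g7 g2 g5 g8 g3 g6 g9 a1 a2 a3 b1 b2 b3 c1 c2 c3
        x1 x2 x3 y1 y2 y3 z1 z2 z3) (fun _ _ _ _ _ e => Or.inl e) c3 c3
    (fun a c g => (cnt_le_add (q := fun y => Γ a y ∧ k1 a y = k1 a c)
      (r := fun y => Γ a y ∧ k2 a y = k2 a c) fun y g' => (cv a c y g g'.1 g'.2).imp
        (fun e => ⟨g'.1, e.symm⟩) fun e => ⟨g'.1, e.symm⟩).trans
          (by linarith [c1 a (k1 a c), c2 a (k2 a c)])) dA ze0 k0 ze1.ge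
  have MD : M ≤ d * σ := hM.trans (by rw [mul_comm]; gcongr)
  set Y := Real.sqrt (16 * (L:ℝ) ^ 8 * (d * σ) ^ 3 * (σ * P) ^ 4 / M) with hY
  have Y0 : 0 ≤ Y := Real.sqrt_nonneg _
  have Y1 : Y ^ 2 * M = 16 * (L:ℝ) ^ 8 * (d * σ) ^ 3 * (σ * P) ^ 4 := by
    rw [hY, Real.sq_sqrt (by positivity), div_mul_cancel₀ _ M0.ne']
  have d1 := CoreN.dd hT Γ k1 k2 L0 cb cN c1 c2 dX D0.le P1 σ0.le le_rfl Y0 M0 MD Y1.ge s1
  have d2 := CoreN.dd hT (fun x a => Γ a x) _ _ L0 cb cN c3 c3 dA D0.le P1 σ0.le le_rfl Y0 M0 MD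
    Y1.ge s2
  rw [ed_flip] at z2 d2
  set Z := (L:ℝ) ^ 9 * X ^ 4 * N with hZ
  refine CoreN.num hX X1 N0 D0 σ0 k0 ze0.le Y0 hZ ?_ ?_ ?_ M0 ?_ ze1 Y1 hE
    ((c4_lower Γ cN cN).trans (mul_le_mul_of_nonneg_left
    (c4.trans (mul_le_mul_of_nonneg_left (add_le_add ?_ ?_) (by positivity))) (by positivity))) rfl
  · refine le_of_mul_le_mul_right ?_ P0
    calc _ = σ * (Z * P) := by ring
      _ ≤ σ * (d ^ 2 * (σ * P)) := mul_le_mul_of_nonneg_left (nm.n1.trans (by gcongr)) σ0.le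
      _ = _ := by ring
  · refine le_of_mul_le_mul_right ?_ (pow_pos P0 2)
    calc _ ≤ d ^ 2 * (σ * P) ^ 2 := nm.n2.trans (by gcongr)
      _ = _ := by ring
  · refine le_of_mul_le_mul_right ?_ (pow_pos P0 2)
    calc _ = σ ^ 3 * (Z ^ 2 * P ^ 5) := by ring
      _ ≤ σ ^ 3 * (d ^ 5 * (σ * P) ^ 2) :=
        mul_le_mul_of_nonneg_left (nm.n3.trans (by gcongr)) (by positivity)
      _ = _ := by ring
  · refine le_of_mul_le_mul_right ?_ P0
    calc _ = σ ^ 4 * (Z ^ 2 * P ^ 5) := by ring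
      _ ≤ σ ^ 4 * (d ^ 5 * (M * (σ * P))) :=
        mul_le_mul_of_nonneg_left (nm.n3.trans (by rw [sq]; gcongr)) (by positivity)
      _ = _ := by ring
  · linarith
  · linarith

end Pool.Agent.Lib.MP_65c801_co.W
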