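import Pool.Agent.Lib.MP_65c801_co.W.St

/-! Two members cross in few intervals of keys. -/

namespace Pool.Agent.Lib.MP_65c801_co.W

open Finset Classical T U

namespace CrsL

/-- a digraph of out-degree at most ten has large independent sets -/
lemma indep (X : ℕ → ℕ → Prop) [DecidableRel X] (k : ℕ) : ∀ T : Finset ℕ,
    (∀ i ∈ T, (T.filter (X i)).card ≤ 10) →
    21 * k < T.card → ∃ J ⊆ T, J.card = k + 1 ∧ ∀ i ∈ J, ∀ j ∈ J, i ≠ j → ¬ X i j := by
  induction k with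
  | zero =>
    intro T _ hT
    obtain ⟨v, hv⟩ := card_pos.1 (by omega : 0 < T.card)
    exact ⟨{v}, by simpa using hv, by simp, fun i hi j hj n =>
      absurd ((mem_singleton.1 hi).trans (mem_singleton.1 hj).symm) n⟩
  | succ k ih =>
    intro T hX hT
    obtain ⟨v, hv, d⟩ : ∃ v ∈ T, (T.filter fun i => X i v).card ≤ 10 := by
      by_contra hc
      push Not at hc
      have := card_mul_le_card_mul (s := T) (t := T) (m := 11) (n := 10) (fun v i => X i v)
        (fun a ha => hc a ha) (fun b hb => hX b hb)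
      omega
    set T' := T.filter fun i => i ≠ v ∧ ¬ X i v ∧ ¬ X v i with hT'
    have c1 : T ⊆ insert v (T' ∪ (T.filter fun i => X i v) ∪ T.filter (X v)) := fun i hi => by
      simp only [hT', mem_insert, mem_union, mem_filter]
      tauto
    have c2 := (card_le_card c1).trans (card_insert_le _ _)
    have c3 := card_union_le (T' ∪ (T.filter fun i => X i v)) (T.filter (X v))
    have c4 := card_union_le T' (T.filter fun i => X i v)
    have c5 := hX v hv
    obtain ⟨J, j1, j2, j3⟩ := ih T' (fun i hi => (card_le_card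
      (filter_subset_filter _ (filter_subset _ _))).trans (hX i (mem_filter.1 hi).1)) (by omega)
    have nv : v ∉ J := fun e => (mem_filter.1 (j1 e)).2.1 rfl
    refine ⟨insert v J, insert_subset hv (j1.trans (filter_subset _ _)),
      by rw [card_insert_of_notMem nv, j2], fun i hi j hj n => ?_⟩
    rcases mem_insert.1 hi with rfl | hi' <;> rcases mem_insert.1 hj with rfl | hj'
    · exact absurd rfl n
    · exact (mem_filter.1 (j1 hj')).2.2.2
    · exact (mem_filter.1 (j1 hi')).2.2.1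
    · exact j3 i hi' j hj' n

variable {V O α : Type} [Fintype V] [Fintype O] [LinearOrder α] {h : V → ℕ → α}
  {H : V → V → Prop} {t : V → V → ℕ} {S : ℕ} {cv : O → V} {wn key : O → ℕ} {I : V → O → Prop}

omit [Fintype V] [Fintype O] in
lemma below {o : O} {b : V} {τ : ℕ} (g : gst h S cv wn I o b ≤ 1) (e : τ / S = wn o)
    (n : ¬ (I b o ∧ h (cv o) τ < h b τ)) : h b τ ≤ h (cv o) τ := by
  unfold gst at g
  split_ifs at g with c1 c2
  · exact not_lt.1 fun l => n ⟨c1, l⟩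
  · exact (c2 τ e).le
  · omega

omit [Fintype V] [Fintype O] in
/-- the order of the keys is the order of the times of the witnesses -/
lemma ord (C : Cen h H t S cv wn key I) {b c : V} {o1 o2 : O} {s1 s2 : ℕ} (k : key o1 < key o2)
    (g1 : gst h S cv wn I o1 c ≤ 1) (w1 : s1 / S = wn o1) (l1 : h (cv o1) s1 ≤ h b s1)
    (g2 : gst h S cv wn I o2 b ≤ 1) (w2 : s2 / S = wn o2) (l2 : h (cv o2) s2 ≤ h c s2)
    (n1 : ¬ (I b o2 ∧ h (cv o2) s1 < h b s1)) (n2 : ¬ (I c o1 ∧ h (cv o1) s2 < h c s2)) :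
    s1 < s2 := by
  rcases C.sep o1 o2 k with e | ⟨e, a1, a2⟩
  · exact Nat.lt_of_div_lt_div (c := S) (by omega)
  · have ne : cv o1 ≠ cv o2 := fun x => by rw [x] at a1; exact lt_irrefl _ a1
    have p1 : h (cv o1) s1 < h (cv o2) s1 :=
      lt_of_le_of_ne (l1.trans (below g2 (w1.trans e) n1)) fun x => ne (C.inj _ _ _ x)
    have p2 : h (cv o2) s2 < h (cv o1) s2 :=
      lt_of_le_of_ne (l2.trans (below g1 (w2.trans e.symm) n2)) fun x => ne (C.inj _ _ _ x).symm
    have b1 := win_bounds C.S0 w1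
    have b2 := win_bounds C.S0 (w2.trans e.symm)
    by_contra hc
    have d1 : s2 ≠ s1 := fun x => by rw [x] at p2; exact lt_asymm p1 p2
    have d2 : wn o1 * S ≠ s2 := fun x => by rw [x] at a1; exact lt_asymm a1 p2
    have d3 : s1 ≠ wn o1 * S + (S - 1) := fun x => by rw [← x] at a2; exact lt_asymm a2 p1
    exact C.na _ _ (wn o1 * S) s2 s1 (wn o1 * S + (S - 1)) (by omega) (by omega) (by omega)
      a1 p2 p1 a2

omit [Fintype O] in
lemma five (C : Cen h H t S cv wn key I) (T : Finset ℕ) (o : ℕ → O) {n : ℕ}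
    (ho : ∀ σ ∈ T, key (o σ) / n = σ) (b : V) (τ : ℕ) :
    (T.filter fun k => I b (o k) ∧ h (cv (o k)) τ < h b τ).card ≤ 5 := by
  have h1 := MB.few C.na C.fam b τ
  unfold cnt at h1
  have h2 : (univ.filter fun y => H b y ∧ h y τ < h b τ).card ≤ 5 := by
    convert (Nat.cast_le (α := ℝ)).1 (h1.trans_eq (by norm_num : (5:ℝ) = ((5:ℕ):ℝ)))
  refine le_trans (card_le_card_of_injOn (fun k => cv (o k)) (fun k hk => ?_)
    fun k hk k' hk' e => ?_) h2
  · have := mem_filter.1 (mem_coe.1 hk)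
    exact mem_coe.2 (mem_filter.2 ⟨mem_univ _, (C.e _ _ this.2.1).1, this.2.2⟩)
  · have a := mem_filter.1 (mem_coe.1 hk)
    have a' := mem_filter.1 (mem_coe.1 hk')
    rw [← ho k a.1, ← ho k' a'.1, C.u b _ _ a.2.1 a'.2.1 e]

end CrsL

open CrsL

theorem crs : CrsS := by
  intro V O α _ _ _ h H t S cv wn key I C n b b' T hT
  by_contra hc
  obtain ⟨σ0, h0⟩ := card_pos.1 (by omega : 0 < T.card)
  obtain ⟨⟨o0, -⟩, -⟩ := hT σ0 h0
  have ch : ∀ c c' : V, (∀ σ ∈ T, ∃ o, key o / 2 ^ n = σ ∧ gA h S cv wn I o c c') →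
      ∃ (o : ℕ → O) (s : ℕ → ℕ), ∀ σ ∈ T, key (o σ) / 2 ^ n = σ ∧ gst h S cv wn I (o σ) c' ≤ 1 ∧
        s σ / S = wn (o σ) ∧ h c' (s σ) < h (cv (o σ)) (s σ) ∧ h (cv (o σ)) (s σ) ≤ h c (s σ) := by
    intro c c' g
    have : ∀ σ, ∃ (o : O) (s : ℕ), σ ∈ T → key o / 2 ^ n = σ ∧ gst h S cv wn I o c' ≤ 1 ∧
        s / S = wn o ∧ h c' s < h (cv o) s ∧ h (cv o) s ≤ h c s := fun σ => by
      by_cases e : σ ∈ T
      · obtain ⟨o, k, g1, s, g2⟩ := g σ e
        exact ⟨o, s, fun _ => ⟨k, g1, g2⟩⟩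
      · exact ⟨o0, 0, fun x => absurd x e⟩
    choose o s hs using this
    exact ⟨o, s, hs⟩
  obtain ⟨o, s, ho⟩ := ch b b' fun σ e => (hT σ e).1
  obtain ⟨o', s', ho'⟩ := ch b' b fun σ e => (hT σ e).2
  obtain ⟨J, j1, j2, j3⟩ := indep (fun i k => (I b (o' k) ∧ h (cv (o' k)) (s i) < h b (s i)) ∨
    (I b' (o k) ∧ h (cv (o k)) (s' i) < h b' (s' i))) 3 T (fun i _ => by
      have f1 := five C T o' (fun σ e => (ho' σ e).1) b (s i)
      have f2 := five C T o (fun σ e => (ho σ e).1) b' (s' i)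
      refine le_trans (card_le_card fun k hk => ?_) ((card_union_le _ _).trans (add_le_add f1 f2))
      have := mem_filter.1 hk
      exact mem_union.2 (this.2.imp (fun x => mem_filter.2 ⟨this.1, x⟩)
        fun x => mem_filter.2 ⟨this.1, x⟩)) (by omega)
  set e := J.orderEmbOfFin j2 with he
  have eJ : ∀ a, e a ∈ J := fun a => J.orderEmbOfFin_mem j2 a
  have eT : ∀ a, e a ∈ T := fun a => j1 (eJ a)
  have p1 : ∀ a c, a < c → s (e a) < s' (e c) := fun a c l => by
    have l' := e.strictMono l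
    obtain ⟨a1, a2, a3, -, a5⟩ := ho _ (eT a)
    obtain ⟨c1, c2, c3, -, c5⟩ := ho' _ (eT c)
    exact ord C (Nat.lt_of_div_lt_div (c := 2 ^ n) (by omega)) a2 a3 a5 c2 c3 c5
      (fun x => j3 _ (eJ a) _ (eJ c) l'.ne (Or.inl x))
      fun x => j3 _ (eJ c) _ (eJ a) l'.ne' (Or.inr x)
  have p2 : ∀ a c, a < c → s' (e a) < s (e c) := fun a c l => by
    have l' := e.strictMono l
    obtain ⟨a1, a2, a3, -, a5⟩ := ho' _ (eT a)
    obtain ⟨c1, c2, c3, -, c5⟩ := ho _ (eT c)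
    exact ord C (Nat.lt_of_div_lt_div (c := 2 ^ n) (by omega)) a2 a3 a5 c2 c3 c5
      (fun x => j3 _ (eJ a) _ (eJ c) l'.ne (Or.inr x))
      fun x => j3 _ (eJ c) _ (eJ a) l'.ne' (Or.inl x)
  have q1 : ∀ a, h b' (s (e a)) < h b (s (e a)) := fun a =>
    (ho _ (eT a)).2.2.2.1.trans_le (ho _ (eT a)).2.2.2.2
  have q2 : ∀ a, h b (s' (e a)) < h b' (s' (e a)) := fun a =>
    (ho' _ (eT a)).2.2.2.1.trans_le (ho' _ (eT a)).2.2.2.2
  exact C.na b' b _ _ _ _ (p1 0 1 (by decide)) (p2 1 2 (by decide)) (p1 2 3 (by decide))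
    (q1 0) (q2 1) (q1 2) (q2 3)

end Pool.Agent.Lib.MP_65c801_co.W
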