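import Pool.Agent.Lib.MP_65c801_co.W.St

/-! The induction on the number of curves for exponents above `7 / 5`. -/

namespace Pool.Agent.Lib.MP_65c801_co.W

open Finset Classical T U

namespace FamC

variable {V α : Type} [Fintype V] [LinearOrder α] {h : V → ℕ → α} {H : V → V → Prop}
  {t : V → V → ℕ} {L : ℕ}

/-- the exponents of the sizes -/
lemma expo {δ : ℝ} (h1 : 2 / 5 < δ) (h2 : δ ≤ 21 / 50) : ∃ (j : ℕ)
    (u : ℕ → ℝ), 1 ≤ j ∧ u 0 = 0 ∧ (∀ i, u i ≤ u (i + 1)) ∧ (∀ i, 0 ≤ u i) ∧ (∀ i, u i ≤ 1 / 2) ∧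
      (∀ i, u (i + 1) = δ / 2 + (1 - δ) * u i) ∧ (7 / 5 - δ) / 2 ≤ u (2 * j + 1) := by
  have q0 : 0 ≤ 1 - δ := by linarith
  have q1 : 1 - δ ≤ 1 := by linarith
  obtain ⟨j, hj⟩ := exists_pow_lt_of_lt_one (sub_pos.2 h1) (show 1 - δ < 1 by linarith)
  have a0 : ∀ i, 0 ≤ (1 - δ) ^ i := fun i => pow_nonneg q0 i
  have a1 : ∀ i, (1 - δ) ^ i ≤ 1 := fun i => pow_le_one₀ q0 q1
  refine ⟨j + 1, fun i => (1 - (1 - δ) ^ i) / 2, by omega, by simp, fun i => ?_,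
    fun i => ?_, fun i => ?_, fun i => ?_, ?_⟩
  · have := pow_le_pow_of_le_one q0 q1 (show i ≤ i + 1 by omega)
    linarith
  · linarith [a1 i]
  · linarith [a0 i]
  · simp only [pow_succ]
    ring
  · have := pow_le_pow_of_le_one q0 q1 (show j ≤ 2 * (j + 1) + 1 by omega)
    linarith

/-- one numerical condition from a linear inequality between exponents -/
lemma gen {Y n p δ μ ω P d : ℝ} {a b c e : ℕ} (i k l m : ℕ) (Y1 : 1 ≤ Y) (n1 : 1 ≤ n) (P1 : 0 ≤ P)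
    (hW : Y ^ e ≤ n ^ ω) (hP : P ≤ Y ^ (c + a) * n ^ p) (hd : Y ^ c * n ^ δ ≤ d)
    (kl : k ≤ l) (he : b * i + a * k ≤ e) (hx : i + k * p + ω ≤ l * δ + m * μ) :
    (Y ^ b * n) ^ i * P ^ k ≤ d ^ l * (n ^ μ) ^ m := by
  have Y0 : 0 < Y := by linarith
  have n0 : 0 < n := by linarith
  have e1 : n ^ i * (n ^ p) ^ k * n ^ ω ≤ (n ^ δ) ^ l * (n ^ μ) ^ m := by
    simp only [← Real.rpow_natCast, ← Real.rpow_mul n0.le, ← Real.rpow_add n0]
    exact Real.rpow_le_rpow_of_exponent_le n1 (by linarith)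
  have e2 : Y ^ (b * i + a * k) ≤ n ^ ω := (pow_le_pow_right₀ Y1 he).trans hW
  have e3 : Y ^ (c * k) ≤ Y ^ (c * l) := pow_le_pow_right₀ Y1 (Nat.mul_le_mul_left c kl)
  calc _ ≤ (Y ^ b * n) ^ i * (Y ^ (c + a) * n ^ p) ^ k := by gcongr
    _ = Y ^ (c * k) * (n ^ i * (n ^ p) ^ k * Y ^ (b * i + a * k)) := by ring
    _ ≤ Y ^ (c * l) * (n ^ i * (n ^ p) ^ k * n ^ ω) := by gcongr
    _ ≤ Y ^ (c * l) * ((n ^ δ) ^ l * (n ^ μ) ^ m) := by gcongr
    _ = (Y ^ c * n ^ δ) ^ l * (n ^ μ) ^ m := by ring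
    _ ≤ _ := by gcongr

/-- the data for the new incidence bound from the induction hypothesis -/
lemma rgOf {δ P : ℝ} {c n : ℕ} (h1 : 2 / 5 ≤ δ) (h2 : δ ≤ 21 / 50) (L0 : 4096 ≤ L)
    (nR : (16000000:ℝ) ≤ n)
    (ih : ∀ k < n, ∀ (V α : Type) [Fintype V] [LinearOrder α] (h : V → ℕ → α) (E : V → V → Prop)
      (t : V → V → ℕ), NoAlt h → Inj h → Fam h E t → (∀ a y, E a y → t a y < 2 ^ L) →
      Fintype.card V ≤ k → ed E ≤ (L:ℝ) ^ c * (k:ℝ) ^ (1 + δ))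
    (hn : NoAlt h) (hi : Inj h) (f : Fam h H t) (tb : ∀ a y, H a y → t a y < 2 ^ L)
    (cn : (Fintype.card V : ℝ) ≤ n) (cb : (Fintype.card V : ℝ) ^ 3 < 2 ^ L)
    (hP : (L:ℝ) ^ 4 * ((L:ℝ) ^ c * (n:ℝ) ^ (δ / 2)) ≤ P) :
    Rg H L P ((n:ℝ) ^ ((7 / 5 - δ) / 2)) := by
  have X0 : (4096:ℝ) ≤ L := by exact_mod_cast L0
  have X1 : (1:ℝ) ≤ L := by linarith
  have n1 : (1:ℝ) ≤ n := by linarith
  have n0 : (0:ℝ) < n := by linarith
  have p1 : 1 ≤ (n:ℝ) ^ (δ / 2) := Real.one_le_rpow n1 (by linarith)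
  have q1 : (n:ℝ) ^ (δ / 2) ≤ (L:ℝ) ^ c * (n:ℝ) ^ (δ / 2) :=
    le_mul_of_one_le_left (by positivity) (one_le_pow₀ X1)
  have q2 : L * (n:ℝ) ^ (δ / 2) ≤ P :=
    (mul_le_mul (le_self_pow₀ X1 (by norm_num)) q1 (by positivity) (by positivity)).trans hP
  have mh : (n:ℝ) ^ ((7 / 5 - δ) / 2) ≤ (n:ℝ) ^ ((1:ℝ) / 2) :=
    Real.rpow_le_rpow_of_exponent_le n1 (by linarith)
  refine ⟨L0, cb, (one_le_mul_of_one_le_of_one_le X1 p1).trans q2, by positivity,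
    fun x x0 x1 G A B g k => ?_, ?_⟩
  · have a2 := cnt_nonneg A
    have a3 := cnt_nonneg B
    have P0 : 0 ≤ P := le_trans (by positivity) q2
    obtain ⟨T, T1, T2⟩ : ∃ T : ℕ, ((T:ℝ) = cnt A ∨ (T:ℝ) = cnt B) ∧
        (T:ℝ) ≤ (n:ℝ) ^ ((7 / 5 - δ) / 2) * x ^ 3 :=
      k.elim (fun k => ⟨(univ.filter A).card, Or.inl rfl, k⟩)
        fun k => ⟨(univ.filter B).card, Or.inr rfl, k⟩
    rcases Nat.eq_zero_or_pos T with rfl | T0
    · refine le_trans (le_of_eq (cnt_zero fun e he => ?_)) (by positivity)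
      rcases T1 with c | c
      · linarith [one_le_cnt (g _ _ he).2.1, Nat.cast_zero (R := ℝ)]
      · linarith [one_le_cnt (g _ _ he).2.2, Nat.cast_zero (R := ℝ)]
    have TR : (0:ℝ) < T := by exact_mod_cast T0
    have x3 : x ^ 3 ≤ 1 := pow_le_one₀ x0.le x1
    have T3 : (T:ℝ) ≤ (n:ℝ) ^ ((1:ℝ) / 2) * x ^ 3 := T2.trans (by gcongr)
    have T4 : (T:ℝ) ≤ (n:ℝ) ^ ((1:ℝ) / 2) := T3.trans (mul_le_of_le_one_right (by positivity) x3)
    have T5 : 2 * T < n := by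
      have k2 : (T:ℝ) * T ≤ n := (mul_le_mul T4 T4 TR.le (by positivity)).trans_eq (by
        rw [← Real.rpow_add n0]; norm_num)
      have : (2:ℝ) * T < n := by linarith [FamB.four k2 nR]
      exact_mod_cast this
    refine (FamB.rect (ih _ T5) hn hi (f.mono fun a y e => (g a y e).1)
      (fun a y e => tb a y (g a y e).1) T0 (by positivity) A B fun a y e => (g a y e).2).trans ?_
    have e1 : (cnt A / T + 1) * (cnt B / T + 1) = 2 * (cnt A + cnt B) / T := by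
      rcases T1 with c | c <;> rw [← c] <;> field_simp <;> ring
    have e2 : (T:ℝ) ^ δ ≤ (n:ℝ) ^ (δ / 2) * x := by
      refine (Real.rpow_le_rpow TR.le T3 (by linarith)).trans ?_
      rw [Real.mul_rpow (by positivity) (by positivity), ← Real.rpow_mul n0.le,
        ← Real.rpow_natCast, ← Real.rpow_mul x0.le, show (1:ℝ) / 2 * δ = δ / 2 by ring]
      refine mul_le_mul_of_nonneg_left ?_ (by positivity)
      exact (Real.rpow_le_rpow_of_exponent_ge x0 x1 (by push_cast; linarith)).trans_eq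
        (Real.rpow_one x)
    have e3 : ((2 * T : ℕ) : ℝ) ^ (1 + δ) ≤ 4 * (T * ((n:ℝ) ^ (δ / 2) * x)) := by
      push_cast
      rw [Real.mul_rpow (by norm_num) TR.le, Real.rpow_add TR, Real.rpow_one]
      refine mul_le_mul ?_ (mul_le_mul_of_nonneg_left e2 TR.le) (by positivity) (by norm_num)
      exact (Real.rpow_le_rpow_of_exponent_le (by norm_num) (show 1 + δ ≤ 2 by linarith)).trans
        (by norm_num)
    have e4 : 8 * ((L:ℝ) ^ c * (n:ℝ) ^ (δ / 2)) ≤ P / (L:ℝ) ^ 3 := by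
      rw [le_div_iff₀ (by positivity)]
      refine le_trans ?_ hP
      calc _ = 8 * ((L:ℝ) ^ 3 * ((L:ℝ) ^ c * (n:ℝ) ^ (δ / 2))) := by ring
        _ ≤ L * ((L:ℝ) ^ 3 * ((L:ℝ) ^ c * (n:ℝ) ^ (δ / 2))) := by gcongr; linarith
        _ = _ := by ring
    rw [e1]
    calc _ ≤ 2 * (cnt A + cnt B) / T * ((L:ℝ) ^ c * (4 * (T * ((n:ℝ) ^ (δ / 2) * x)))) := by gcongr
      _ = (cnt A + cnt B) * (x * (8 * ((L:ℝ) ^ c * (n:ℝ) ^ (δ / 2)))) := by field_simp; ring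
      _ ≤ (cnt A + cnt B) * (x * (P / (L:ℝ) ^ 3)) := by gcongr
      _ = _ := by ring
  · have e1 : (n:ℝ) * ((n:ℝ) ^ ((7 / 5 - δ) / 2)) ^ 10 ≤ ((n:ℝ) ^ (δ / 2)) ^ 30 := by
      rw [← Real.rpow_natCast, ← Real.rpow_natCast, ← Real.rpow_mul n0.le, ← Real.rpow_mul n0.le,
        ← Real.rpow_one_add' n0.le (by push_cast; linarith)]
      exact Real.rpow_le_rpow_of_exponent_le n1 (by push_cast; linarith)
    calc _ ≤ (n:ℝ) * ((L:ℝ) ^ 3 * (n:ℝ) ^ ((7 / 5 - δ) / 2)) ^ 10 := by gcongr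
      _ = (L:ℝ) ^ 30 * (n * ((n:ℝ) ^ ((7 / 5 - δ) / 2)) ^ 10) := by ring
      _ ≤ (L:ℝ) ^ 30 * ((n:ℝ) ^ (δ / 2)) ^ 30 := by gcongr
      _ = (L * (n:ℝ) ^ (δ / 2)) ^ 30 := by ring
      _ ≤ _ := by gcongr

lemma step (hN : NoNS) {δ ω : ℝ} {j c n : ℕ} {u : ℕ → ℝ} (h1 : 2 / 5 ≤ δ) (h2 : δ ≤ 21 / 50)
    (j1 : 1 ≤ j) (u0 : u 0 = 0) (u1 : ∀ i, u i ≤ u (i + 1)) (u2 : ∀ i, 0 ≤ u i)
    (u3 : ∀ i, u i ≤ 1 / 2)
    (u4 : ∀ i, u (i + 1) = δ / 2 + (1 - δ) * u i) (u5 : (7 / 5 - δ) / 2 ≤ u (2 * j + 1))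
    (hc2 : 2 * (356 * j + 217) + 5 * (89 * j + 89) ≤ c) (hω : ω ≤ δ - 2 / 5)
    (hW : (L:ℝ) ^ (2 * (356 * j + 217) + 5 * (89 * j + 89)) ≤ (n:ℝ) ^ ω) (L0 : 4096 ≤ L)
    (jL : 4 * j + 5 ≤ L) (nL : n ^ (4 * j + 5) < 2 ^ L) (big : L ^ c ≤ n)
    (ih : ∀ k < n, ∀ (V α : Type) [Fintype V] [LinearOrder α] (h : V → ℕ → α) (E : V → V → Prop)
      (t : V → V → ℕ), NoAlt h → Inj h → Fam h E t → (∀ a y, E a y → t a y < 2 ^ L) →
      Fintype.card V ≤ k → ed E ≤ (L:ℝ) ^ c * (k:ℝ) ^ (1 + δ))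
    (hn : NoAlt h) (hi : Inj h) (f : Fam h H t) (tb : ∀ a y, H a y → t a y < 2 ^ L)
    (cn : Fintype.card V ≤ n) : ed H ≤ (L:ℝ) ^ c * (n:ℝ) ^ (1 + δ) := by
  have b1 : (356 * j + 217) * 0 + (89 * j + 89) * 1 ≤ 2 * (356 * j + 217) + 5 * (89 * j + 89) := by
    linarith [Nat.zero_le j]
  have b2 : (356 * j + 217) * 1 + (89 * j + 89) * 1 ≤ 2 * (356 * j + 217) + 5 * (89 * j + 89) := by
    linarith [Nat.zero_le j]
  have b3 : (356 * j + 217) * 1 + (89 * j + 89) * 2 ≤ 2 * (356 * j + 217) + 5 * (89 * j + 89) :=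
    Nat.le.intro (k := (356 * j + 217) + 3 * (89 * j + 89)) (by ring)
  have b4 : (356 * j + 217) * 2 + (89 * j + 89) * 5 ≤ 2 * (356 * j + 217) + 5 * (89 * j + 89) :=
    le_of_eq (by ring)
  have cc : c ≤ c + 89 * j + 50 := by omega
  have jL' : j ≤ L := by omega
  have c24 : 24 ≤ c + 89 * j + 50 := by omega
  have j3 : 3 ≤ 4 * j + 5 := by omega
  by_contra hm
  push Not at hm
  have X0 : (4096:ℝ) ≤ L := by exact_mod_cast L0
  have X1 : (1:ℝ) ≤ L := by linarith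
  have nb : 16000000 ≤ n := le_trans (le_trans (by norm_num : 16000000 ≤ 4096 ^ 2)
    ((Nat.pow_le_pow_left L0 2).trans (Nat.pow_le_pow_right (by omega) (by omega)))) big
  have nR : (16000000:ℝ) ≤ n := by exact_mod_cast nb
  have n1 : (1:ℝ) ≤ n := by linarith
  have n0 : (0:ℝ) < n := by linarith
  have cnR : (Fintype.card V : ℝ) ≤ n := by exact_mod_cast cn
  have m0 : 0 < ed H := lt_trans (by positivity) hm
  obtain ⟨s, hs⟩ : ∃ s, s = n / 256 + 1 := ⟨_, rfl⟩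
  have s0 : 0 < s := by omega
  have sR : (0:ℝ) < s := by exact_mod_cast s0
  have s1 : (n:ℝ) ≤ 256 * s := by exact_mod_cast (by omega : n ≤ 256 * s)
  have s2 : (125:ℝ) * ((2 * s : ℕ) : ℝ) ≤ n := by exact_mod_cast (by omega : 125 * (2 * s) ≤ n)
  have s3 : (s:ℝ) ≤ n := by exact_mod_cast (by omega : s ≤ n)
  have ih' := ih (2 * s) (by omega)
  have hc' : Fintype.card V ≤ 256 * s := by omega
  have v1 := FamA.high ih' hn hi f tb s0 hc' m0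
  have v2 := FamA.high ih' hn.flip hi.flip f.flip (fun y a => tb a y) s0 hc' (by rwa [ed_flip])
  rw [← cnt_swap, ed_flip] at v2
  have v3 : 625 * (((2 * s : ℕ) : ℝ) ^ (1 + δ)) ≤ (n:ℝ) ^ (1 + δ) := by
    have a1 : (625:ℝ) ≤ 125 ^ (1 + δ) := by
      calc (625:ℝ) = (5 ^ (3:ℝ)) ^ ((4:ℝ) / 3) := by
            rw [← Real.rpow_mul (by norm_num)]; norm_num
        _ = 125 ^ ((4:ℝ) / 3) := by norm_num
        _ ≤ _ := Real.rpow_le_rpow_of_exponent_le (by norm_num) (by linarith)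
    calc _ ≤ 125 ^ (1 + δ) * (((2 * s : ℕ) : ℝ) ^ (1 + δ)) := by gcongr
      _ = (125 * ((2 * s : ℕ) : ℝ)) ^ (1 + δ) := by
          rw [Real.mul_rpow (by norm_num) (by positivity)]
      _ ≤ _ := Real.rpow_le_rpow (by positivity) s2 (by linarith)
  set d := ed H / (s:ℝ) with hd
  have v4 := cnt_le_add3 (p := fun e : V × V => H e.1 e.2) (q := fun e => H e.1 e.2 ∧
    cnt (fun y => H e.1 y) ≤ d ∧ cnt (fun a => H a e.2) ≤ d)
    (r := fun e => H e.1 e.2 ∧ d < cnt fun y => H e.1 y)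
    (s := fun e => H e.1 e.2 ∧ d < cnt fun a => H a e.2) fun e g =>
      (le_or_gt _ d).elim (fun a => (le_or_gt _ d).elim (fun b => Or.inl ⟨g, a, b⟩)
        fun b => Or.inr (Or.inr ⟨g, b⟩)) fun a => Or.inr (Or.inl ⟨g, a⟩)
  have d0 : 0 ≤ d := by positivity
  have dlo : (L:ℝ) ^ c * (n:ℝ) ^ δ ≤ d := by
    rw [hd, le_div_iff₀ sR]
    refine le_trans ?_ hm.le
    rw [Real.rpow_add n0, Real.rpow_one, mul_assoc, mul_comm _ (s:ℝ)]
    gcongr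
  have dhi : d ≤ (n:ℝ) ^ 2 := by
    rw [hd, div_le_iff₀ sR]
    have a1 : ed H ≤ (n:ℝ) * n := (cnt_le_card _).trans (by
      rw [Fintype.card_prod, Nat.cast_mul]; gcongr)
    exact a1.trans ((sq (n:ℝ)).symm.trans_le
      (le_mul_of_one_le_right (sq_nonneg _) (by exact_mod_cast s0)))
  set P0 := (n:ℝ) ^ (δ / 2) with hP0
  have p1 : 1 ≤ P0 := Real.one_le_rpow n1 (by linarith)
  obtain ⟨θ, hθ⟩ : ∃ θ, θ = ⌈(L:ℝ) ^ (c + 89 * j + 50) * P0⌉₊ := ⟨_, rfl⟩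
  have q1 : 1 ≤ (L:ℝ) ^ (c + 89 * j + 50) * P0 :=
    one_le_mul_of_one_le_of_one_le (one_le_pow₀ X1) p1
  have θ1 : (L:ℝ) ^ (c + 89 * j + 50) * P0 ≤ θ := hθ ▸ Nat.le_ceil _
  have θ2 : (θ:ℝ) ≤ 2 * ((L:ℝ) ^ (c + 89 * j + 50) * P0) := by
    have := Nat.ceil_lt_add_one (zero_le_one.trans q1)
    rw [hθ]; linarith
  have Phi : (L:ℝ) ^ 38 * θ ≤ (L:ℝ) ^ (c + (89 * j + 89)) * P0 := by
    calc _ ≤ (L:ℝ) ^ 38 * (L * ((L:ℝ) ^ (c + 89 * j + 50) * P0)) := by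
          gcongr; exact θ2.trans (by gcongr; linarith)
      _ = _ := by ring
  have P00 : 0 ≤ (L:ℝ) ^ 38 * θ := by positivity
  have pd : (L:ℝ) ^ 38 * θ ≤ d := by
    simpa only [pow_zero, pow_one, one_mul, mul_one] using gen (μ := 0) 0 1 1 0 X1 n1 P00 hW Phi dlo
      le_rfl b1 (by push_cast; linarith)
  have nm : Nu ((L:ℝ) ^ (356 * j + 217) * n) ((L:ℝ) ^ 38 * θ) d ((n:ℝ) ^ ((7 / 5 - δ) / 2)) :=
    ⟨by simpa only [pow_one] using gen (μ := (7 / 5 - δ) / 2) 1 1 2 1 X1 n1 P00 hW Phi dlo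
          (by norm_num) b2 (by push_cast; linarith),
      by simpa only [pow_one] using gen (μ := (7 / 5 - δ) / 2) 1 2 2 2 X1 n1 P00 hW Phi dlo
          le_rfl b3 (by push_cast; linarith),
      gen 2 5 5 2 X1 n1 P00 hW Phi dlo le_rfl b4 (by push_cast; linarith)⟩
  have Plo : (L:ℝ) ^ 4 * ((L:ℝ) ^ c * P0) ≤ (L:ℝ) ^ 38 * θ :=
    mul_le_mul (pow_le_pow_right₀ X1 (by norm_num)) ((mul_le_mul_of_nonneg_right
      (pow_le_pow_right₀ X1 cc) (zero_le_one.trans p1)).trans θ1) (by positivity) (by positivity)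
  have nLR : (n:ℝ) ^ (4 * j + 5) < 2 ^ L := by exact_mod_cast nL
  have cb : (Fintype.card V : ℝ) ^ 3 < 2 ^ L := ((pow_le_pow_left₀ (by positivity) cnR 3).trans
    (pow_le_pow_right₀ n1 j3)).trans_lt nLR
  have rg := (rgOf h1 h2 L0 nR ih hn hi f tb cnR cb Plo).mono
    (F := fun a y => H a y ∧ cnt (fun y => H a y) ≤ d ∧ cnt (fun a => H a y) ≤ d) fun a y g => g.1
  have K1 : ∀ i, 1 ≤ (n:ℝ) ^ u i := fun i => Real.one_le_rpow n1 (u2 i)
  refine hN V α h (fun a y => H a y ∧ cnt (fun y => H a y) ≤ d ∧ cnt (fun a => H a y) ≤ d) t L θ j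
    n d ((n:ℝ) ^ ((7 / 5 - δ) / 2)) ⟨hn, hi, f.mono fun a y g => g.1, fun a y g => tb a y g.1, L0,
      cb, ?_⟩ (fun a => ?_) (fun y => ?_)
    ⟨jL', j1, cnR, n0, by positivity, pd, ?_, ?_,
      ⟨fun i => (n:ℝ) ^ u i, fun i => 16 * (L:ℝ) ^ c * ((n:ℝ) ^ u i) ^ (1 + δ), by simp [u0],
        fun i => Real.rpow_le_rpow_of_exponent_le n1 (u1 i), fun i => by positivity,
        Real.rpow_le_rpow_of_exponent_le n1 u5, fun i _ => ⟨fun G A B g => ?_, ?_⟩⟩, nm, rg⟩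
  · have : (L:ℝ) ^ 24 ≤ θ := le_trans ((pow_le_pow_right₀ X1 c24).trans
      (le_mul_of_one_le_right (by positivity) p1)) θ1
    exact_mod_cast this
  · by_cases k : cnt (fun y => H a y) ≤ d
    · exact (cnt_mono fun y g => g.1).trans k
    · rwa [cnt_zero fun y g => k g.2.1]
  · by_cases k : cnt (fun a => H a y) ≤ d
    · exact (cnt_mono fun a g => g.1).trans k
    · rwa [cnt_zero fun a g => k g.2.2]
  · have a1 : (n:ℝ) * d ≤ 256 * ed H := by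
      rw [hd, ← mul_div_assoc, div_le_iff₀ sR]
      exact (mul_le_mul_of_nonneg_right s1 m0.le).trans_eq (by ring)
    have a2 := mul_le_mul_of_nonneg_left v3 (by positivity : 0 ≤ (L:ℝ) ^ c)
    have a3 := cnt_nonneg fun e : V × V => H e.1 e.2 ∧ cnt (fun y => H e.1 y) ≤ d ∧
      cnt (fun a => H a e.2) ≤ d
    have a4 := mul_le_mul_of_nonneg_right X0 a3
    unfold ed at *
    linarith
  · refine lt_of_le_of_lt ?_ nLR
    calc _ ≤ (n:ℝ) * ((n:ℝ) ^ 2) ^ (2 * j + 2) := by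
          gcongr
          · linarith
          · exact pd.trans dhi
      _ = _ := by ring
  · have k1 := K1 i
    have k2 : (n:ℝ) ^ u i * (n:ℝ) ^ u i ≤ n := by
      rw [← Real.rpow_add n0]
      exact (Real.rpow_le_rpow_of_exponent_le n1 (by linarith [u3 i])).trans_eq (Real.rpow_one _)
    set K := (n:ℝ) ^ u i
    have T1 : K ≤ ⌈K⌉₊ := Nat.le_ceil _
    have T2 : ((2 * ⌈K⌉₊ : ℕ) : ℝ) ≤ 4 * K := by
      have := Nat.ceil_lt_add_one (zero_le_one.trans k1)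
      push_cast; linarith
    have T3 : 2 * ⌈K⌉₊ < n := by
      have : ((2 * ⌈K⌉₊ : ℕ) : ℝ) < n := T2.trans_lt (FamB.four k2 nR)
      exact_mod_cast this
    refine (FamB.rect (ih _ T3) hn hi (f.mono fun a y e => (g a y e).1.1)
      (fun a y e => tb a y (g a y e).1.1) (Nat.ceil_pos.2 (by linarith)) (by positivity) A B
      fun a y e => (g a y e).2).trans ?_
    have a1 : ((2 * ⌈K⌉₊ : ℕ) : ℝ) ^ (1 + δ) ≤ 16 * K ^ (1 + δ) := by
      refine (Real.rpow_le_rpow (by positivity) T2 (by linarith)).trans ?_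
      rw [Real.mul_rpow (by norm_num) (by positivity)]
      gcongr
      exact (Real.rpow_le_rpow_of_exponent_le (by norm_num) (show 1 + δ ≤ 2 by linarith)).trans
        (by norm_num)
    have a2 := cnt_nonneg A
    have a3 := cnt_nonneg B
    have K0 : 0 < K := by linarith
    calc _ ≤ (cnt A / K + 1) * (cnt B / K + 1) * ((L:ℝ) ^ c * (16 * K ^ (1 + δ))) := by gcongr
      _ = _ := by ring
  · have a1 : (n:ℝ) ^ u (i + 1) * ((n:ℝ) ^ u i) ^ (1 + δ) = P0 * ((n:ℝ) ^ u i) ^ 2 := by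
      rw [hP0, ← Real.rpow_mul n0.le, ← Real.rpow_natCast, ← Real.rpow_mul n0.le,
        ← Real.rpow_add n0, ← Real.rpow_add n0, u4]
      congr 1; push_cast; ring
    have a2 : 512 * (L:ℝ) ^ (c + 1) * P0 ≤ 1 / (L:ℝ) ^ (89 * j + 86) * ((L:ℝ) ^ 38 * θ) := by
      rw [one_div, ← div_eq_inv_mul, le_div_iff₀ (by positivity)]
      calc _ = 512 * ((L:ℝ) ^ 37 * ((L:ℝ) ^ (c + 89 * j + 50) * P0)) := by ring
        _ ≤ L * ((L:ℝ) ^ 37 * θ) := by gcongr; linarith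
        _ = _ := by ring
    calc _ = 512 * (L:ℝ) ^ (c + 1) * ((n:ℝ) ^ u (i + 1) * ((n:ℝ) ^ u i) ^ (1 + δ)) := by ring
      _ = 512 * (L:ℝ) ^ (c + 1) * P0 * ((n:ℝ) ^ u i) ^ 2 := by rw [a1]; ring
      _ ≤ _ := by gcongr

end FamC

theorem famN (hN : NoNS) : FamNS := by
  intro β hβ
  obtain ⟨δ, h1, h2, h3⟩ : ∃ δ : ℝ, 2 / 5 < δ ∧ δ ≤ 21 / 50 ∧ 1 + δ ≤ β := by
    rcases le_total β (1 + 21 / 50) with c | c
    · exact ⟨β - 1, by linarith, by linarith, by linarith⟩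
    · exact ⟨21 / 50, by norm_num, le_rfl, c⟩
  obtain ⟨j, u, j1, u0, u1, u2, u3, u4, u5⟩ := FamC.expo h1 h2
  obtain ⟨N, hN'⟩ := exists_nat_one_div_lt (sub_pos.2 h1)
  obtain ⟨e, he⟩ : ∃ e, e = 2 * (356 * j + 217) + 5 * (89 * j + 89) := ⟨_, rfl⟩
  have key : FamW (1 + δ) (4 * j + 5) (e * (N + 1)) := by
    intro L n L0 jL
    induction n using Nat.strong_induction_on with
    | _ n ih =>
      intro nL V α _ _ h E t hn hi f tb cn
      rcases le_total n (L ^ (e * (N + 1))) with sm | big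
      · exact FamB.small (by linarith) cn sm
      · refine FamC.step hN h1.le h2 j1 u0 u1 u2 u3 u4 u5
          (he ▸ Nat.le_mul_of_pos_right _ (Nat.succ_pos N)) hN'.le ?_ L0 jL nL big
          (fun k hk => ih k hk ((Nat.pow_le_pow_left hk.le _).trans_lt nL)) hn hi f tb cn
        rw [← he, one_div, Real.le_rpow_inv_iff_of_pos (by positivity) (by positivity)
          (by positivity), ← Nat.cast_succ, Real.rpow_natCast, ← pow_mul]
        exact_mod_cast big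
  refine ⟨4 * j + 5, e * (N + 1), fun L n L0 jL nL V α _ _ h E t hn hi f tb cn => ?_⟩
  rcases Nat.eq_zero_or_pos n with rfl | n0
  · exact FamB.small (by linarith) cn (Nat.zero_le _)
  · exact (key L n L0 jL nL V α h E t hn hi f tb cn).trans (mul_le_mul_of_nonneg_left
      (Real.rpow_le_rpow_of_exponent_le (by exact_mod_cast n0) h3) (by positivity))

end Pool.Agent.Lib.MP_65c801_co.W
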