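import Pool.Agent.Lib.MP_65c801_co.W.St

/-! From the bound for families of lenses to the cutting theorem for Jordan curves, for every
exponent above `7 / 5`. -/

namespace Pool.Agent.Lib.MP_65c801_co.W

open Finset Classical T T.Fn U

theorem cutN (hF : FamNS) {b : ℝ} (hb : 7 / 5 < b) :
    ∃ C : ℝ, 0 ≤ C ∧ CutF fun n => C * (n : ℝ) ^ b := by
  obtain ⟨β, b1, b2⟩ := exists_between hb
  obtain ⟨J, c, hF⟩ := hF β b1
  set e := (b - β) / (c + 1 : ℕ) with he
  have e0 : 0 < e := div_pos (by linarith) (by positivity)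
  refine ⟨2 * (4096 + J + (J + 2) * (1 + 2 / e)) ^ (c + 1), by positivity, ?_⟩
  intro V α _ _ h hn hi n M n1 hc hM
  set i := Nat.log 2 n + 1 with hi'
  have i1 : n < 2 ^ i := Nat.lt_pow_succ_log_self (by norm_num) n
  set L := 4096 + J + (J + 2) * i with hL
  have hM' : M ≤ 2 ^ L := by
    refine (hM.trans (Nat.pow_le_pow_left i1.le 2)).trans ?_
    rw [← pow_mul]
    exact Nat.pow_le_pow_right two_pos (by nlinarith)
  have hJ : n ^ J < 2 ^ L := by
    refine (Nat.pow_le_pow_left i1.le J).trans_lt ?_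
    rw [← pow_mul]
    exact Nat.pow_lt_pow_right (by norm_num) (by nlinarith)
  obtain ⟨X, hX, hX'⟩ := cut_of_bound hn hi hM' (ν := (L : ℝ) ^ c * (n : ℝ) ^ β) fun E t f tb =>
    hF L n (by omega) (by omega) hJ V α h E t hn hi f (fun a y g => (tb a y g).trans_le hM') hc
  refine ⟨X, hX.trans ?_, hX'⟩
  have n0 : (1 : ℝ) ≤ n := by exact_mod_cast n1
  have l0 := Real.log_nonneg n0
  have p1 : 1 ≤ (n : ℝ) ^ e := Real.one_le_rpow n0 e0.le
  have h1 : (i : ℝ) ≤ (1 + 2 / e) * (n : ℝ) ^ e := by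
    have i3 : (2 : ℝ) ^ Nat.log 2 n ≤ n := by exact_mod_cast Nat.pow_log_le_self 2 (by omega)
    have h2 := Real.log_le_log (by positivity) i3
    rw [Real.log_pow] at h2
    have h3 := Real.log_two_gt_d9
    have h4 := Real.log_le_rpow_div (by positivity : (0 : ℝ) ≤ n) e0
    have h5 : (0 : ℝ) ≤ Nat.log 2 n := Nat.cast_nonneg _
    have h6 : (1 + 2 / e) * (n : ℝ) ^ e = (n : ℝ) ^ e + 2 * ((n : ℝ) ^ e / e) := by ring
    rw [hi', h6]
    push_cast
    nlinarith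
  have h3 : (L : ℝ) ≤ (4096 + J + (J + 2) * (1 + 2 / e)) * (n : ℝ) ^ e := by
    rw [hL]
    push_cast
    have a1 := mul_le_mul_of_nonneg_left h1 (by positivity : (0 : ℝ) ≤ J + 2)
    have a2 := mul_le_mul_of_nonneg_left p1 (by positivity : (0 : ℝ) ≤ 4096 + J)
    linarith
  have h4 : ((n : ℝ) ^ e) ^ (c + 1) * (n : ℝ) ^ β = (n : ℝ) ^ b := by
    rw [← Real.rpow_natCast, ← Real.rpow_mul (by positivity), ← Real.rpow_add (by positivity), he,
      div_mul_cancel₀ _ (by positivity), sub_add_cancel]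
  calc _ = 2 * (L : ℝ) ^ (c + 1) * (n : ℝ) ^ β := by ring
    _ ≤ 2 * ((4096 + J + (J + 2) * (1 + 2 / e)) * (n : ℝ) ^ e) ^ (c + 1) * (n : ℝ) ^ β := by
      gcongr
    _ = _ := by beta_reduce; rw [mul_pow, ← h4]; ring

/-- the cutting theorem for Jordan curves from the bound for families of lenses -/
theorem geoN (hF : FamNS) : ∀ b : ℝ, 7 / 5 < b → ∃ C : ℝ,
    ∀ (n : ℕ) (γ : Fin n → Circle → ℂ), (∀ i, Continuous (γ i)) →
    (∀ i, Function.Injective (γ i)) →
    (∀ i j, i ≠ j → (Set.range (γ i) ∩ Set.range (γ j)).encard ≤ 2) →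
    (∀ i j, i ≠ j → ∀ p ∈ Set.range (γ i) ∩ Set.range (γ j), ∀ U ∈ nhds p,
      ∃ a ∈ U ∩ (Set.range (γ j) \ Set.range (γ i)), ∃ b ∈ U ∩ (Set.range (γ j) \ Set.range (γ i)),
        b ∉ connectedComponentIn (Set.range (γ i))ᶜ a) →
    ∃ X : Finset ℂ, (X.card : ℝ) ≤ C * (n : ℝ) ^ b ∧
      (∀ x ∈ X, ∃ i, x ∈ Set.range (γ i)) ∧ (∀ i, ∃ x ∈ X, x ∈ Set.range (γ i)) ∧
      ∀ i j p q, (i ≠ j ∨ connectedComponentIn (Set.range (γ i) \ ↑X) p ≠
          connectedComponentIn (Set.range (γ j) \ ↑X) q) →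
        (connectedComponentIn (Set.range (γ i) \ ↑X) p ∩
          connectedComponentIn (Set.range (γ j) \ ↑X) q).Subsingleton := by
  intro b hb
  obtain ⟨c, c0, h⟩ := cutN hF hb
  have b1 : 1 ≤ b := by linarith
  refine ⟨3 + c * 2 ^ b, fun n γ h1 h2 h3 h4 => ?_⟩
  rcases Nat.eq_zero_or_pos n with rfl | hn
  · exact ⟨∅, by simp [Real.zero_rpow (by linarith : b ≠ 0)], by simp, fun i => i.elim0,
      fun i => i.elim0⟩
  obtain ⟨X, x1, x2, x3, x4⟩ := geoF (combF h) n γ hn h1 h2 h3 h4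
  refine ⟨X, x1.trans ?_, x2, x3, fun i j p q c => ?_⟩
  · have n1 : (1 : ℝ) ≤ n := by exact_mod_cast hn
    have a1 := Real.rpow_le_rpow_of_exponent_le n1 b1
    rw [Real.rpow_one] at a1
    beta_reduce
    push_cast
    rw [Real.mul_rpow (by norm_num) (by positivity)]
    linarith
  by_cases e : i = j
  · subst e
    rintro x ⟨a, b⟩
    exact absurd ((connectedComponentIn_eq a).trans (connectedComponentIn_eq b).symm)
      (c.resolve_left fun d => d rfl)
  · exact x4 i j e p q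

end Pool.Agent.Lib.MP_65c801_co.W
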