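import Pool.Agent.Lib.MP_65c801_co.W.St

/-! The incidence bound for large groups from rounds and slabs. -/

namespace Pool.Agent.Lib.MP_65c801_co.W

open Finset Classical T U

namespace IncG

/-- the parameters -/
lemma par {X P M s n : ℝ} (X0 : 4096 ≤ X) (P1 : 1 ≤ P) (M0 : 0 < M) (s1 : X ^ 3 < s)
    (s2 : P ^ 3 < s * M) (rn : n * (X ^ 3 * M) ^ 10 ≤ P ^ 30) :
    16 ≤ M * (s / P) ^ 3 ∧ 8 ≤ s / (1200 * (X + 1)) ∧
      n ≤ M * (s / P) ^ 3 * (s / (1200 * (X + 1)) / 8) ^ 10 := by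
  have P0 : 0 < P := by linarith
  have X1 : 0 < X := by linarith
  have x2 : 16000000 ≤ X ^ 2 := by nlinarith
  have x3 : 9600 * (X + 1) ≤ X ^ 3 := by nlinarith
  have s0 : 4 ≤ s := by nlinarith
  have s3 : 0 < s := by linarith
  have k1 : 16 ≤ M * (s / P) ^ 3 := by
    rw [div_pow, ← mul_div_assoc, le_div_iff₀ (by positivity)]
    calc 16 * P ^ 3 ≤ s ^ 2 * (s * M) := by gcongr; nlinarith
      _ = _ := by ring
  refine ⟨k1, by rw [le_div_iff₀ (by positivity)]; linarith, ?_⟩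
  have e1 : n ≤ (s / X ^ 3) ^ 10 := by
    rw [div_pow, le_div_iff₀ (by positivity)]
    refine le_of_mul_le_mul_right ?_ (pow_pos M0 10)
    calc _ = n * (X ^ 3 * M) ^ 10 := by ring
      _ ≤ (P ^ 3) ^ 10 := rn.trans_eq (by ring)
      _ ≤ (s * M) ^ 10 := by gcongr
      _ = _ := by ring
  have e2 : s / X ^ 3 ≤ s / (1200 * (X + 1)) / 8 := by
    rw [div_div]
    gcongr
    linarith
  calc n ≤ (s / (1200 * (X + 1)) / 8) ^ 10 := e1.trans (by gcongr)
    _ ≤ _ := le_mul_of_one_le_left (by positivity) (by linarith)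

/-- the final inequality -/
lemma fin {X P M s g u e : ℝ} (X0 : 4096 ≤ X) (P1 : 1 ≤ P) (M0 : 0 < M) (s0 : 0 < s) (g0 : 0 < g)
    (sP : s ≤ P) (u0 : 0 ≤ u) (he : e = s * g) (k1 : 16 ≤ M * (s / P) ^ 3)
    (h : e ≤ u * s + (X + 1) * (168 * P * u ^ 2 / (M * (s / P) ^ 3 / 8 - 1) +
      15 * 10 * (s / (1200 * (X + 1))) * g + (2 ^ 10 * (e / s) + g) * (s / P * P / X ^ 3))) :
    e ≤ 2 * P * u ∨ e ^ 4 * M ≤ X ^ 3 * P ^ 4 * u ^ 2 * g ^ 3 := by
  have P0 : 0 < P := by linarith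
  have X1 : 0 < X := by linarith
  have x2 : 16000000 ≤ X ^ 2 := by nlinarith
  have x3 : 10752 * (X + 1) ≤ X ^ 3 := by nlinarith
  have e0 : 0 < e := by rw [he]; positivity
  refine (le_or_gt e (2 * P * u)).imp_right fun c => ?_
  set K := M * (s / P) ^ 3 with hK
  have a1 : (X + 1) * (15 * 10 * (s / (1200 * (X + 1))) * g) = e / 8 := by
    rw [he]; field_simp; norm_num
  have a2 : (X + 1) * ((2 ^ 10 * (e / s) + g) * (s / P * P / X ^ 3)) ≤ e / 8 := by
    have : (2 ^ 10 * (e / s) + g) * (s / P * P / X ^ 3) = 1025 * e / X ^ 3 := by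
      rw [he]; field_simp; norm_num
    rw [this, ← mul_div_assoc, div_le_div_iff₀ (by positivity) (by norm_num)]
    nlinarith
  have a3 : u * s ≤ e / 2 := by nlinarith
  have a4 : 168 * P * u ^ 2 / (K / 8 - 1) ≤ 168 * P * u ^ 2 / (K / 16) := by
    gcongr; linarith
  have a5 : e / 4 ≤ (X + 1) * (168 * P * u ^ 2 / (K / 16)) := by
    have := mul_le_mul_of_nonneg_left a4 (show 0 ≤ X + 1 by linarith)
    rw [mul_add, mul_add] at h
    linarith
  rw [← mul_div_assoc, le_div_iff₀ (by positivity)] at a5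
  have a6 : e ^ 4 * M = 64 * (e / 4 * (K / 16)) * (P ^ 3 * g ^ 3) := by
    rw [hK, he]; field_simp; norm_num
  calc e ^ 4 * M ≤ 64 * ((X + 1) * (168 * P * u ^ 2)) * (P ^ 3 * g ^ 3) := by rw [a6]; gcongr
    _ = 10752 * (X + 1) * (P ^ 4 * u ^ 2 * g ^ 3) := by ring
    _ ≤ X ^ 3 * (P ^ 4 * u ^ 2 * g ^ 3) := by gcongr
    _ = _ := by ring

end IncG

theorem incG (rnd : RndS) (slab : SlabS) (sts : StsS) (crs : CrsS) : IncGS := by
  intro V O α _ _ _ h H t S L cv wn key I P M e U c r kL kP oP he e1 e2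
  have X0 : (4096:ℝ) ≤ L := by exact_mod_cast r.L0
  have P1 := r.P1
  have M0 := r.M0
  have P0 : 0 < P := by linarith
  have st1 : ∀ o b, gst h S cv wn I o b = 1 ↔ I b o := fun o b => by
    unfold gst
    split_ifs with k1 k2 <;> simp [k1]
  have e0 : 0 < e := lt_of_le_of_lt (by positivity) e1
  have eP : e ≤ Fintype.card O * P := by
    rw [he, cnt_prod']
    refine (sum_le_sum (g := fun _ => P) fun o _ => (cnt_mono fun b g => g.2).trans (oP o)).trans ?_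
    simp
  have g0 : (0:ℝ) < Fintype.card O := (mul_pos_iff_of_pos_right P0).1 (e0.trans_le eP)
  obtain ⟨s, hs⟩ : ∃ s, s = e / Fintype.card O := ⟨_, rfl⟩
  have es : e = s * Fintype.card O := by rw [hs, div_mul_cancel₀ _ g0.ne']
  have s0 : 0 < s := by rw [hs]; positivity
  have s1 : (L:ℝ) ^ 3 < s := by rwa [hs, lt_div_iff₀ g0]
  have sP : s ≤ P := by rwa [hs, div_le_iff₀ g0, mul_comm]
  have s2 : P ^ 3 < s * M := by
    refine lt_of_mul_lt_mul_left ?_ g0.le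
    calc _ < e * M := e2
      _ = _ := by rw [es]; ring
  obtain ⟨k1, k2, k3⟩ := IncG.par X0 P1 M0 s1 s2 r.rn
  obtain ⟨Ex, hS⟩ := sts V O α h H t S cv wn key I c
  have rc := r.rc (s / P) (by positivity) ((div_le_one P0).2 sP)
  have p0 : 0 ≤ s / P * P / (L:ℝ) ^ 3 := by positivity
  have ei : ic (gst h S cv wn I) U (fun _ => True) = e := by
    rw [he]
    exact cnt_congr fun z => by simp [st1]
  have z := slab V O (gst h S cv wn I) (gA h S cv wn I) key L P (M * (s / P) ^ 3 / 8 - 1) s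
    (15 * (10:ℕ) * (s / (1200 * (L + 1)))) (2 ^ 10) (s / P * P / (L:ℝ) ^ 3) U kL
    (fun b k => (cnt_mono fun o g => ⟨(st1 o b).1 g.1, g.2⟩).trans (kP b k))
    (crs V O α h H t S cv wn key I c) (by linarith) s0 sP (by positivity) (by positivity) p0
    fun B Y hB => rnd V O _ _ Ex (M * (s / P) ^ 3) _ _ _ hS (by linarith) p0 (by linarith) k2
      (fun B Y hK => ?_) 10 B Y hB ((cnt_le_card B).trans k3)
  · rw [ei] at z
    exact IncG.fin X0 P1 M0 s0 g0 sP (cnt_nonneg U) es k1 (by exact_mod_cast z)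
  · have a1 : cnt (fun y => ∃ o, Y o ∧ cv o = y) ≤ cnt Y := cnt_surj cv fun y g => g
    have a2 := rc (fun a y => ∃ o, B a ∧ Y o ∧ I a o ∧ cv o = y) B (fun y => ∃ o, Y o ∧ cv o = y)
      (fun a y ⟨o, g1, g2, g3, g4⟩ => ⟨g4 ▸ (c.e a o g3).1, g1, o, g2, g4⟩) (Or.inl hK)
    refine le_trans (cnt_inj (fun z : V × O => (z.1, cv z.2)) (fun z g => ?_)
      fun z w g g' k => ?_) (a2.trans (by gcongr))
    · exact ⟨z.2, g.1, g.2.1, (st1 _ _).1 g.2.2, rfl⟩
    · obtain ⟨k1, k2⟩ := Prod.mk.inj k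
      exact Prod.ext k1 (c.u z.1 _ _ ((st1 _ _).1 g.2.2) (k1 ▸ (st1 _ _).1 g'.2.2) k2)

end Pool.Agent.Lib.MP_65c801_co.W
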