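import Pool.Agent.Lib.MP_65c801_co.W.Small

/-! The new incidence bound for groups at the lower curves. -/

namespace Pool.Agent.Lib.MP_65c801_co.W

open Finset Classical T U

theorem j1N (inc : IncS) (i1 : I1S) (ig : IncGS) : J1S := by
  intro V α K _ _ h H t κ S L P M na inj fam S0 tb win q c rg G U e _ he
  have L1 : (4096:ℝ) ≤ L := by exact_mod_cast rg.L0
  have P1 := rg.P1
  have M0 := rg.M0
  have u0 := cnt_nonneg U
  have L34 : (L:ℝ) ^ 3 ≤ (L:ℝ) ^ 4 := pow_le_pow_right₀ (by linarith) (by norm_num)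
  have eg : e ≤ G.card * P := he ▸ cnt_fib_le (fun z : V × V => (z.1, κ z.1 z.2)) G
    (fun z g => g.2.1) fun γ _ => le_trans (cnt_inj (fun z => z.2) (fun z g => by
      have := g.2
      subst this
      exact ⟨g.1.1, rfl⟩) fun z w g g' k => Prod.ext
        (Prod.mk.inj (g.2.trans g'.2.symm)).1 k) (c γ.1 γ.2)
  by_cases hs : e * M ≤ G.card * P ^ 3
  · exact (small inc (i1 V α K h H t κ S L P na fam (le_trans (by norm_num) rg.L0) tb win q)
      rg.L0 P1 M0 G U he eg hs).imp_right Or.inr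
  by_cases h4 : e ≤ (L:ℝ) ^ 4 * G.card
  · exact Or.inl h4
  right
  let O : Type := ↥(G.filter fun γ => ∃ y, H γ.1 y ∧ κ γ.1 y = γ.2)
  have ex : ∀ o : O, ∃ y, H o.1.1 y ∧ κ o.1.1 y = o.1.2 := fun o => (mem_filter.1 o.2).2
  choose y0 y1 y2 using ex
  have cO : (Fintype.card O : ℝ) ≤ G.card := by
    rw [Fintype.card_coe]
    exact_mod_cast card_filter_le _ _
  let I : V → O → Prop := fun y o => H o.1.1 y ∧ κ o.1.1 y = o.1.2
  have hw : ∀ y o, I y o → t o.1.1 y / S = t o.1.1 (y0 o) / S := fun y o g =>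
    win _ _ _ g.1 (y1 o) (g.2.trans (y2 o).symm)
  have hu : ∀ y o o', I y o → I y o' → o.1.1 = o'.1.1 → o = o' := fun y o o' g g' k =>
    Subtype.ext (Prod.ext k (by rw [← g.2, ← g'.2, k]))
  have he' : e = cnt fun z : V × O => U z.1 ∧ I z.1 z.2 := by
    rw [he]
    refine le_antisymm ?_ (cnt_inj (fun z => (z.2.1.1, z.1)) (fun z g => ⟨g.2.1, ?_, g.1⟩)
      fun z w g g' k => ?_)
    · refine (mul_one _).symm.trans_le (cnt_fib_ge (fun z : V × O => (z.2.1.1, z.1)) fun z g => ?_)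
      exact one_le_cnt (x := (z.2, ⟨_, mem_filter.2 ⟨g.2.1, z.2, g.1, rfl⟩⟩))
        ⟨⟨g.2.2, g.1, rfl⟩, rfl⟩
    · show (z.2.1.1, κ z.2.1.1 z.1) ∈ G
      rw [g.2.2]
      exact (mem_filter.1 z.2.2).1
    · obtain ⟨k1, k2⟩ := Prod.mk.inj k
      exact Prod.ext k2 (hu _ _ _ g.2 (k2 ▸ g'.2) k1)
  rcases ig V O αᵒᵈ _ (fun y a => H a y) (fun y a => t a y) S L (fun o => o.1.1)
    (fun o => t o.1.1 (y0 o) / S) (fun o => t o.1.1 (y0 o) / S) I P M e U
    ⟨na.flip, inj.flip, fam.flip, S0, fun y o g => ⟨g.1, hw y o g⟩, hu, fun _ _ g => Or.inl g⟩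
    rg.flip (fun o => (Nat.div_le_self _ _).trans_lt (tb _ _ (y1 o)))
    (fun y k => le_trans (cnt_inj (fun o => o.1.1) (fun o g => ⟨g.1.1, (hw y o g.1).trans g.2⟩)
      fun o o' g g' => hu y o o' g.1 g'.1) (q y k)) (fun o => c o.1.1 o.1.2) he'
    (lt_of_le_of_lt (by gcongr) (not_le.1 h4)) (lt_of_le_of_lt (by gcongr) (not_le.1 hs)) with
    r | r
  · exact Or.inl (r.trans (by gcongr; norm_num))
  · exact Or.inr (r.trans (by gcongr))

end Pool.Agent.Lib.MP_65c801_co.W
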