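import Pool.Agent.Lib.MP_65c801_co.W.St

/-! The new incidence bound for groups at the upper curves. -/

namespace Pool.Agent.Lib.MP_65c801_co.W

open Finset Classical T U

namespace J2L

/-- the rank of a value among all values -/
lemma rank {O β : Type} [Fintype O] [LinearOrder β] (f : O → β) : ∃ key : O → ℕ,
    (∀ o o', key o < key o' → f o < f o') ∧ (∀ o o', key o = key o' → f o = f o') ∧
    ∀ o, key o ≤ Fintype.card O := by
  have mono : ∀ o o', f o ≤ f o' → (univ.filter fun x => f x < f o).card ≤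
      (univ.filter fun x => f x < f o').card := fun o o' e => card_le_card fun x hx => by
    simp only [mem_filter, mem_univ, true_and] at hx ⊢
    exact hx.trans_le e
  have st : ∀ o o', f o < f o' → (univ.filter fun x => f x < f o).card <
      (univ.filter fun x => f x < f o').card := fun o o' e => by
    refine card_lt_card ⟨fun x hx => ?_, fun hs => ?_⟩
    · simp only [mem_filter, mem_univ, true_and] at hx ⊢
      exact hx.trans e
    · have := hs (mem_filter.2 ⟨mem_univ o, e⟩)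
      simp at this
  refine ⟨fun o => (univ.filter fun x => f x < f o).card, fun o o' e => ?_, fun o o' e => ?_,
    fun o => card_le_univ _⟩
  · exact lt_of_not_ge fun c => (mono _ _ c).not_gt e
  · rcases lt_trichotomy (f o) (f o') with c | c | c
    exacts [absurd e (st _ _ c).ne, c, absurd e (st _ _ c).ne']

/-- the landed bound is enough when the groups have few edges -/
lemma small {X P M e u g : ℝ} (X1 : 4096 ≤ X) (P1 : 1 ≤ P) (M0 : 0 < M) (e0 : 0 ≤ e) (g0 : 0 ≤ g)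
    (h1 : e ≤ g * P) (h2 : e * M ≤ 2 * (g * P ^ 3))
    (h3 : e ≤ 2 * g ∨ e ^ 2 ≤ 4 * (216 * X ^ 2) * u ^ 2 * g ∨
      e ^ 3 ≤ 16 * (216 * X ^ 2) * g ^ 2 * u ^ 2 * P) :
    e ≤ X ^ 4 * g ∨ e ^ 4 * M ≤ X ^ 4 * P ^ 4 * u ^ 2 * g ^ 3 := by
  have X2 : 6912 ≤ X ^ 2 := by nlinarith
  have X4 : 6912 * X ^ 2 ≤ X ^ 4 := by nlinarith
  have q : 0 ≤ P ^ 4 * u ^ 2 * g ^ 3 := by positivity
  have P0 : 0 ≤ P := by linarith
  have fin : 6912 * X ^ 2 * (P ^ 4 * u ^ 2 * g ^ 3) ≤ X ^ 4 * P ^ 4 * u ^ 2 * g ^ 3 :=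
    (mul_le_mul_of_nonneg_right X4 q).trans_eq (by ring)
  rcases h3 with c | c | c
  · exact Or.inl (c.trans (mul_le_mul_of_nonneg_right (by nlinarith) g0))
  · refine Or.inr (le_trans ?_ fin)
    calc _ = e ^ 2 * e * (e * M) := by ring
      _ ≤ 4 * (216 * X ^ 2) * u ^ 2 * g * (g * P) * (2 * (g * P ^ 3)) := by gcongr
      _ = 1728 * X ^ 2 * (P ^ 4 * u ^ 2 * g ^ 3) := by ring
      _ ≤ _ := by gcongr; norm_num
  · refine Or.inr (le_trans ?_ fin)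
    calc _ = e ^ 3 * (e * M) := by ring
      _ ≤ 16 * (216 * X ^ 2) * g ^ 2 * u ^ 2 * P * (2 * (g * P ^ 3)) := by gcongr
      _ = _ := by ring

variable {V α : Type} [Fintype V] [LinearOrder α] {h : V → ℕ → α} {H : V → V → Prop}
  {t : V → V → ℕ} {S L : ℕ} {P M : ℝ}

/-- one class of groups with a position inside the windows -/
lemma cls (hG : IncGS) (hn : NoAlt h) (hi : Inj h) (fam : Fam h H t) (S0 : 0 < S)
    (q2 : ∀ y w, cnt (fun a => H a y ∧ t a y / S = w) ≤ P) (rg : Rg H L P M)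
    (G : Finset (V × ℕ)) (f : V → ℕ → ℤ)
    (hA : ∀ γ ∈ G, ∀ γ' ∈ G, γ.2 = γ'.2 → f γ.1 γ.2 < f γ'.1 γ.2 → Anti h S γ.2 γ.1 γ'.1)
    (hP : ∀ b w r, cnt (fun y => H b y ∧ t b y / S = w ∧ f y w = r) ≤ P)
    (hc : (G.card:ℝ) < 2 ^ L) (U : V → Prop) (e : ℝ)
    (he : e = ed (fun c y => H y c ∧ (c, t y c / S) ∈ G ∧ U y)) :
    e ≤ (L:ℝ) ^ 3 * G.card ∨ e * M ≤ G.card * P ^ 3 ∨ e ≤ 2 * P * cnt U ∨
      e ^ 4 * M ≤ (L:ℝ) ^ 3 * P ^ 4 * cnt U ^ 2 * (G.card:ℝ) ^ 3 := by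
  by_cases c1 : e ≤ (L:ℝ) ^ 3 * G.card
  · exact Or.inl c1
  by_cases c2 : e * M ≤ G.card * P ^ 3
  · exact Or.inr (Or.inl c2)
  refine Or.inr (Or.inr ?_)
  obtain ⟨key, k1, k2, k3⟩ := rank (O := G) fun o => toLex (o.1.2, f o.1.1 o.1.2)
  have cO : Fintype.card G = G.card := Fintype.card_coe G
  have uq : ∀ b (o o' : G), (H b o.1.1 ∧ t b o.1.1 / S = o.1.2) →
      (H b o'.1.1 ∧ t b o'.1.1 / S = o'.1.2) → o.1.1 = o'.1.1 → o = o' := fun b o o' g g' e =>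
    Subtype.ext (Prod.ext e (by rw [← g.2, ← g'.2, e]))
  rw [← cO] at c1 c2 hc ⊢
  refine hG V G α h H t S L (fun o => o.1.1) (fun o => o.1.2) key
    (fun b o => H b o.1.1 ∧ t b o.1.1 / S = o.1.2) P M e U
    ⟨hn, hi, fam, S0, fun _ _ g => g, uq, fun o o' g => ?_⟩ rg (fun o => ?_) (fun b k => ?_)
    (fun o => q2 _ _) ?_ (not_le.1 c1) (not_le.1 c2)
  · rcases Prod.Lex.toLex_lt_toLex.1 (k1 o o' g) with c | c
    · exact Or.inl c
    · have c1 : o.1.2 = o'.1.2 := c.1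
      exact Or.inr ⟨c1, hA _ o.2 _ o'.2 c1 (by rw [c1]; rw [c1] at c; exact c.2)⟩
  · have : (key o : ℝ) < 2 ^ L := lt_of_le_of_lt (by exact_mod_cast k3 o) hc
    exact_mod_cast this
  · by_cases c : ∃ o, key o = k
    · obtain ⟨o0, rfl⟩ := c
      refine le_trans (cnt_inj (fun o : G => o.1.1) (fun o g => ?_) fun o o' g g' e =>
        uq b o o' g.1 g'.1 e) (hP b o0.1.2 (f o0.1.1 o0.1.2))
      have := Prod.mk.inj (toLex.injective (k2 _ _ g.2))
      exact ⟨g.1.1, g.1.2.trans this.1, by rw [← this.2, this.1]⟩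
    · exact (cnt_zero fun o g => c ⟨o, g.2⟩).trans_le (by linarith [rg.P1])
  · rw [he]
    refine le_antisymm (cnt_surj (fun z : V × G => (z.2.1.1, z.1)) ?_)
      (cnt_inj (fun z : V × G => (z.2.1.1, z.1)) (fun z g => ⟨g.2.1, ?_, g.1⟩)
        fun z z' g g' e => ?_)
    · rintro ⟨c, y⟩ ⟨g1, g2, g3⟩
      exact ⟨(y, ⟨_, g2⟩), ⟨g3, g1, rfl⟩, rfl⟩
    · show (z.2.1.1, t z.1 z.2.1.1 / S) ∈ G
      rw [g.2.2]
      exact z.2.2
    · obtain ⟨e1, e2⟩ := Prod.mk.inj e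
      exact Prod.ext e2 (uq z.1 _ _ g.2 (e2 ▸ g'.2) e1)

end J2L

open J2L in
theorem j2N (inc : IncS) (i2 : I2S) (hG : IncGS) : J2S := by
  intro V α _ _ h H t S L P M row col a hn hi fam S0 tb u q2 rg G U e hs he
  have L1 : 1 ≤ L := by have := rg.L0; omega
  have X1 : (4096:ℝ) ≤ L := by exact_mod_cast rg.L0
  have P1 := rg.P1
  have M0 := rg.M0
  have e0 : 0 ≤ e := he ▸ cnt_nonneg _
  have u0 := cnt_nonneg U
  have g0 : (0:ℝ) ≤ G.card := Nat.cast_nonneg _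
  have : Nonempty V := ⟨a⟩
  choose! fy hy using hs
  have hy1 : ∀ γ ∈ G, H a (fy γ) ∧ t a (fy γ) / S = γ.2 ∧ row (fy γ) γ.2 = row γ.1 γ.2 ∧
      col (fy γ) γ.2 = col γ.1 γ.2 := fun γ g => by
    obtain ⟨g1, g2⟩ := hy γ g
    simp only [cl, Prod.mk.injEq] at g2
    obtain ⟨g2, g3, g4⟩ := g2
    rw [g2] at g3 g4
    exact ⟨g1, g2, g3, g4⟩
  have hc : (G.card:ℝ) < 2 ^ L := by
    refine lt_of_le_of_lt ?_ (lt2 rg.cb fun _ : V × V => True)
    have : G.card ≤ (univ : Finset (V × V)).card :=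
      card_le_card_of_injOn (fun γ => (γ.1, fy γ)) (fun _ _ => by simp) fun γ g γ' g' e => by
        obtain ⟨e1, e2⟩ := Prod.mk.inj e
        exact Prod.ext e1 (by rw [← (hy1 γ g).2.1, ← (hy1 γ' g').2.1, e2])
    unfold cnt
    simpa using (Nat.cast_le (α := ℝ)).2 this
  have h1 : e ≤ G.card * P := by
    rw [he]
    refine cnt_fib_le (fun z : V × V => (z.1, t z.2 z.1 / S)) G (fun z g => g.2.1) fun γ _ =>
      le_trans (cnt_inj (fun z : V × V => z.2) (fun z g => ?_) fun z z' g g' e => ?_) (q2 γ.1 γ.2)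
    · obtain ⟨g, rfl⟩ := g
      exact ⟨g.1, rfl⟩
    · exact Prod.ext ((congrArg Prod.fst g.2).trans (congrArg Prod.fst g'.2).symm) e
  have fin : ∀ (G1 : Finset (V × ℕ)) (e1 : ℝ), G1 ⊆ G → e ≤ 2 * e1 →
      (e1 ≤ (L:ℝ) ^ 3 * G1.card ∨ e1 * M ≤ G1.card * P ^ 3 ∨ e1 ≤ 2 * P * cnt U ∨
      e1 ^ 4 * M ≤ (L:ℝ) ^ 3 * P ^ 4 * cnt U ^ 2 * (G1.card:ℝ) ^ 3) →
      e ≤ (L:ℝ) ^ 4 * G.card ∨ e ≤ 4 * P * cnt U ∨
      e ^ 4 * M ≤ (L:ℝ) ^ 4 * P ^ 4 * cnt U ^ 2 * (G.card:ℝ) ^ 3 := by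
    intro G1 e1 sub b c
    have gg : (G1.card:ℝ) ≤ G.card := by exact_mod_cast card_le_card sub
    rcases c with c | c | c | c
    · left
      calc e ≤ 2 * ((L:ℝ) ^ 3 * G1.card) := by linarith
        _ ≤ L * ((L:ℝ) ^ 3 * G.card) := by gcongr; linarith
        _ = _ := by ring
    · refine (small X1 P1 M0 e0 g0 h1 ?_ (inc V ℕ _ _ _ P
        (i2 V α h H t S L P row col hn fam L1 tb S0 u) (by positivity) P1 G U e he)).imp_right
        Or.inr
      calc e * M ≤ 2 * e1 * M := by gcongr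
        _ = 2 * (e1 * M) := by ring
        _ ≤ 2 * (G1.card * P ^ 3) := by gcongr
        _ ≤ _ := by gcongr
    · right; left; linarith
    · right; right
      calc e ^ 4 * M ≤ (2 * e1) ^ 4 * M := by gcongr
        _ = 16 * (e1 ^ 4 * M) := by ring
        _ ≤ L * ((L:ℝ) ^ 3 * P ^ 4 * cnt U ^ 2 * (G.card:ℝ) ^ 3) :=
          mul_le_mul (by linarith) (c.trans (by gcongr)) (by positivity) (by positivity)
        _ = _ := by ring
  set q : V × ℕ → Prop := fun γ => ∃ z, H a z ∧ t a z / S = γ.2 ∧ col z γ.2 = col γ.1 γ.2 ∧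
    row γ.1 γ.2 < row z γ.2 with hq
  have lt : ∀ G1 : Finset (V × ℕ), G1 ⊆ G → (G1.card:ℝ) < 2 ^ L := fun G1 sub =>
    lt_of_le_of_lt (by exact_mod_cast card_le_card sub) hc
  have sp : e ≤ ed (fun c y => H y c ∧ (c, t y c / S) ∈ G.filter (fun γ => ¬ q γ) ∧ U y) +
      ed (fun c y => H y c ∧ (c, t y c / S) ∈ G.filter q ∧ U y) := by
    rw [he]
    refine cnt_le_add fun z g => ?_
    by_cases c : q (z.1, t z.2 z.1 / S)
    · exact Or.inr ⟨g.1, mem_filter.2 ⟨g.2.1, c⟩, g.2.2⟩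
    · exact Or.inl ⟨g.1, mem_filter.2 ⟨g.2.1, c⟩, g.2.2⟩
  rcases le_total (ed (fun c y => H y c ∧ (c, t y c / S) ∈ G.filter q ∧ U y))
    (ed (fun c y => H y c ∧ (c, t y c / S) ∈ G.filter (fun γ => ¬ q γ) ∧ U y)) with c | c
  · refine fin (G.filter fun γ => ¬ q γ) _ (filter_subset _ _) (sp.trans (by linarith))
      (cls hG hn hi fam S0 q2 rg _
      (fun y w => row y w) ?_ (fun b w r => ?_) (lt _ (filter_subset _ _)) U _ rfl)
    · rintro ⟨y, w⟩ g ⟨y', w'⟩ g' (rfl : w = w') l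
      have l : row y w < row y' w := by exact_mod_cast l
      obtain ⟨g, n⟩ := mem_filter.1 g
      obtain ⟨a1, a2, a3, a4⟩ := hy1 _ g
      obtain ⟨b1, b2, b3, b4⟩ := hy1 _ (mem_filter.1 g').1
      simp only at a2 a3 a4 b2 b3 b4
      have := u.st a _ _ w a1 b1 a2 b2 (by rw [a3, b3]; exact l)
      rw [a4, b4] at this
      exact ⟨u.r0 _ _ _ l, u.c0 _ _ _ (lt_of_le_of_ne this fun k =>
        n ⟨_, b1, b2, b4.trans k, by rw [b3]; exact l⟩)⟩
    · refine le_trans (cnt_mono fun y g => ⟨g.1, g.2.1, ?_⟩) (u.rs b w r.toNat)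
      rw [← g.2.2]; simp
  · refine fin (G.filter q) _ (filter_subset _ _) (sp.trans (by linarith))
      (cls hG hn hi fam S0 q2 rg _
      (fun y w => - (col y w : ℤ)) ?_ (fun b w r => ?_) (lt _ (filter_subset _ _)) U _ rfl)
    · rintro ⟨y, w⟩ g ⟨y', w'⟩ g' (rfl : w = w') l
      have l : col y' w < col y w := by exact_mod_cast neg_lt_neg_iff.1 l
      obtain ⟨-, z, z1, z2, z3, z4⟩ := mem_filter.1 g
      obtain ⟨b1, b2, b3, b4⟩ := hy1 _ (mem_filter.1 g').1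
      simp only at z2 z3 z4 b2 b3 b4
      refine ⟨u.r0 _ _ _ (lt_of_not_ge fun k => ?_), u.c0 _ _ _ l⟩
      have := u.st a _ _ w b1 z1 b2 z2 (by rw [b3]; exact k.trans_lt z4)
      omega
    · refine le_trans (cnt_mono fun y g => ⟨g.1, g.2.1, ?_⟩) (u.cs b w (-r).toNat)
      rw [← g.2.2]; simp

end Pool.Agent.Lib.MP_65c801_co.W
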