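import Pool.Agent.Lib.MP_65c801_co.W.St

/-! Dyadic intervals of keys. -/

namespace Pool.Agent.Lib.MP_65c801_co.W

open Finset Classical T U

theorem slab : SlabS := by
  intro V O _ _ st A key L P κ s a c p U kL kP cr κ0 s0 sP a0 c0 p0 bl
  set dg : ℕ → V → ℕ → ℝ := fun i b σ => cnt fun o => st o b = 1 ∧ key o / 2 ^ i = σ with hdg
  set E : V × O → Prop := fun z => U z.1 ∧ True ∧ st z.2 z.1 = 1 with hE
  have ee : ic st U (fun _ => True) = cnt E := rfl
  rw [ee]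
  set e := cnt E with he
  set Lv : ℕ → V × O → Prop := fun i z => s ≤ dg i z.1 (key z.2 / 2 ^ i) ∧
    ∀ i' < i, dg i' z.1 (key z.2 / 2 ^ i') < s with hLv
  have P0 : 0 ≤ P := by linarith
  have lev : ∀ i, cnt (fun z => E z ∧ Lv i z) ≤ 168 * P * cnt U ^ 2 / κ +
      a * Fintype.card O + (c * (e / s) + Fintype.card O) * p := by
    intro i
    set Y : ℕ → O → Prop := fun σ o => key o / 2 ^ i = σ with hY
    set B : ℕ → V → Prop := fun σ b => U b ∧ s ≤ dg i b σ with hB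
    set Hv : ℕ → V → Prop := fun σ b => B σ b ∧ κ < cnt fun c => B σ c ∧ Crs A (Y σ) b c with hH
    have mem : ∀ o, key o / 2 ^ i ∈ range (2 ^ L) := fun o =>
      mem_range.2 ((Nat.div_le_self _ _).trans_lt (kL o))
    have two : ∀ b σ, cnt (fun o => st o b = 1 ∧ Lv i (b, o) ∧ Y σ o) ≤ 2 * P := by
      intro b σ
      rcases i with _ | i
      · refine le_trans (cnt_mono fun o g => ⟨g.1, by simpa [hY] using g.2.2⟩)
          ((kP b σ).trans (by linarith))
      · have h1 : ∀ ρ, cnt (fun o => (st o b = 1 ∧ Lv (i + 1) (b, o)) ∧ key o / 2 ^ i = ρ) ≤ P := by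
          intro ρ
          by_cases x : ∃ o, (st o b = 1 ∧ Lv (i + 1) (b, o)) ∧ key o / 2 ^ i = ρ
          · obtain ⟨o, g, rfl⟩ := x
            exact (cnt_mono fun o' g' => ⟨g'.1.1, g'.2⟩).trans
              ((g.2.2 i (Nat.lt_succ_self i)).le.trans sP)
          · rwa [cnt_zero fun o g => x ⟨o, g⟩]
        refine (cnt_le_add fun o g => ?_).trans
          ((add_le_add (h1 (2 * σ)) (h1 (2 * σ + 1))).trans (by linarith))
        have : key o / 2 ^ i / 2 = σ := by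
          rw [Nat.div_div_eq_div_mul, ← pow_succ]; exact g.2.2
        have : key o / 2 ^ i = 2 * σ ∨ key o / 2 ^ i = 2 * σ + 1 := by omega
        exact this.imp (fun x => ⟨⟨g.1, g.2.1⟩, x⟩) fun x => ⟨⟨g.1, g.2.1⟩, x⟩
    have one : ∀ σ, cnt (fun z => (E z ∧ Lv i z) ∧ key z.2 / 2 ^ i = σ) ≤
        cnt (Hv σ) * (2 * P) + (a * cnt (Y σ) + (c * cnt (B σ) + cnt (Y σ)) * p) := by
      intro σ
      refine (cnt_le_add (q := fun z => Hv σ z.1 ∧ st z.2 z.1 = 1 ∧ Lv i z ∧ Y σ z.2)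
        (r := fun z => (B σ z.1 ∧ ¬ Hv σ z.1) ∧ Y σ z.2 ∧ st z.2 z.1 = 1) fun z g => ?_).trans
        (add_le_add ?_ ?_)
      · by_cases x : Hv σ z.1
        · exact Or.inl ⟨x, g.1.1.2.2, g.1.2, g.2⟩
        · exact Or.inr ⟨⟨⟨g.1.1.1, g.2 ▸ g.1.2.1⟩, x⟩, g.2, g.1.1.2.2⟩
      · exact cnt_pair_le (fun _ _ g => g.1) fun b _ => (cnt_mono fun o g => g.2).trans (two b σ)
      · refine (bl (fun b => B σ b ∧ ¬ Hv σ b) (Y σ) fun b g => ?_).trans ?_
        · exact (cnt_mono fun c g' => ⟨g'.1.1, g'.2⟩).trans (not_lt.1 fun x => g.2 ⟨g.1, x⟩)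
        · have : cnt (fun b => B σ b ∧ ¬ Hv σ b) ≤ cnt (B σ) := cnt_mono fun b g => g.1
          gcongr
    have s1 : ∑ σ ∈ range (2 ^ L), cnt (Y σ) ≤ Fintype.card O := by
      refine le_trans (le_of_eq ?_) (cnt_le_card fun _ : O => True)
      rw [cnt_fib _ (fun o => key o / 2 ^ i) _ fun o _ => mem o]
      exact sum_congr rfl fun σ _ => cnt_congr fun o => by simp [hY]
    have s2 : ∑ σ ∈ range (2 ^ L), cnt (B σ) ≤ e / s := by
      rw [le_div_iff₀ s0, sum_mul, he, cnt_fib E (fun z => key z.2 / 2 ^ i) _ fun z _ => mem z.2]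
      refine sum_le_sum fun σ _ => cnt_pair_ge fun b g => g.2.trans (cnt_mono fun o k => ?_)
      exact ⟨⟨g.1, trivial, k.1⟩, k.2⟩
    have s3 : ∑ σ ∈ range (2 ^ L), cnt (Hv σ) ≤ 84 * cnt U ^ 2 / κ := by
      rw [le_div_iff₀ κ0, sum_mul]
      have h1 : ∀ σ, cnt (Hv σ) * κ ≤
          ∑ z : V × V, if (U z.1 ∧ U z.2) ∧ Crs A (Y σ) z.1 z.2 then (1:ℝ) else 0 := fun σ => by
        refine le_trans (cnt_pair_ge (p := fun z : V × V => (U z.1 ∧ U z.2) ∧ Crs A (Y σ) z.1 z.2)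
          fun b g => g.2.le.trans (cnt_mono fun o k => ⟨⟨g.1.1, k.1.1⟩, k.2⟩)) (le_of_eq ?_)
        rw [cnt_eq_sum]
        exact sum_congr rfl fun z _ => by congr
      refine (sum_le_sum fun σ _ => h1 σ).trans ?_
      rw [sum_comm, cnt_sq, mul_comm]
      refine sum_le_cnt_mul _ (fun z g => ?_) fun z g => ?_
      · rw [sum_boole]
        have := cr i z.1 z.2 ((range (2 ^ L)).filter fun σ =>
          (U z.1 ∧ U z.2) ∧ Crs A (Y σ) z.1 z.2) fun σ k => (mem_filter.1 k).2.2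
        exact_mod_cast this
      · exact le_of_eq (sum_eq_zero fun σ _ => if_neg fun k => g k.1)
    rw [cnt_fib _ (fun z : V × O => key z.2 / 2 ^ i) _ fun z _ => mem z.2]
    refine (sum_le_sum fun σ _ => one σ).trans ?_
    simp only [sum_add_distrib, ← sum_mul, ← mul_sum]
    calc _ ≤ 84 * cnt U ^ 2 / κ * (2 * P) + (a * Fintype.card O +
          (c * (e / s) + Fintype.card O) * p) := by gcongr
      _ = _ := by ring
  have k0 : ∀ o, key o / 2 ^ L = 0 := fun o => Nat.div_eq_of_lt (kL o)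
  refine (cnt_split E fun z => dg L z.1 0 < s).le.trans ?_
  refine add_le_add (cnt_pair_le (fun _ _ g => g.1.1) fun b _ => ?_) ?_
  · by_cases x : dg L b 0 < s
    · exact (cnt_mono fun o g => ⟨g.1.2.2, k0 o⟩).trans x.le
    · rw [cnt_zero fun o g => x g.2]; exact s0.le
  · refine (cnt_cover _ (L + 1) Lv fun z g => ?_).trans ?_
    · have ex : ∃ i, s ≤ dg i z.1 (key z.2 / 2 ^ i) := ⟨L, by rw [k0]; exact not_lt.1 g.2⟩
      exact ⟨Nat.find ex, Nat.lt_succ_of_le (Nat.find_min' ex (by rw [k0]; exact not_lt.1 g.2)),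
        Nat.find_spec ex, fun i' hi => not_le.1 (Nat.find_min ex hi)⟩
    · refine (sum_le_sum fun i _ => (cnt_mono fun z g => ⟨g.1.1, g.2⟩).trans (lev i)).trans ?_
      simp only [sum_const, card_range, nsmul_eq_mul]
      push_cast
      exact le_rfl

end Pool.Agent.Lib.MP_65c801_co.W
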