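import Pool.Agent.Lib.MP_65c801_co.W.St

/-! The geometric states have few exceptions. -/

namespace Pool.Agent.Lib.MP_65c801_co.W

open Finset Classical T U

/-- few partners of `y` are above `y` at a given time -/
lemma five {V α : Type} [Fintype V] [LinearOrder α] {h : V → ℕ → α} {H : V → V → Prop}
    {t : V → V → ℕ} (hn : NoAlt h) (f : Fam h H t) (y : V) (τ : ℕ) :
    cnt (fun c => H c y ∧ h y τ < h c τ) ≤ 5 :=
  MB.few hn.flip f.flip y τ

theorem sts : StsS := by
  intro V O α _ _ _ h H t S cv wn key I c
  have one : ∀ o b, gst h S cv wn I o b = 1 → I b o := by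
    intro o b e
    unfold gst at e
    split_ifs at e with a a' <;> first | exact a | omega
  refine ⟨fun o b d => I d o ∧ ∃ hx : ∃ τ, τ / S = wn o ∧ h (cv o) τ ≤ h b τ,
    h (cv o) hx.choose < h d hx.choose, ?_, ?_, ?_, ?_⟩
  · intro o b
    unfold gst
    split_ifs <;> omega
  · intro o b d e
    have le : gst h S cv wn I o b ≤ 2 := by
      unfold gst
      split_ifs <;> omega
    have hx : ∃ τ, τ / S = wn o ∧ h (cv o) τ ≤ h b τ := by
      by_cases a : I b o
      · exact ⟨_, (c.e b o a).2, (c.fam.p1 _ _ (c.e b o a).1).le⟩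
      · by_contra hn
        push Not at hn
        have : gst h S cv wn I o b = 0 := by
          unfold gst
          rw [if_neg a, if_pos hn]
        omega
    rcases lt_or_ge (h d hx.choose) (h (cv o) hx.choose) with a | a
    · exact Or.inl ⟨by omega, _, hx.choose_spec.1, a, hx.choose_spec.2⟩
    · have i : I d o := by
        by_contra i
        unfold gst at e le
        rw [if_neg i, if_neg (fun g => absurd (g _ hx.choose_spec.1) (not_lt.2 a))] at e
        omega
      refine Or.inr ⟨i, hx, lt_of_le_of_ne a fun g => ?_⟩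
      have g' := c.inj _ _ _ g
      have := c.fam.p1 _ _ (c.e d o i).1
      rw [← g'] at this
      exact lt_irrefl _ this
  · intro o b d ne e1 e2
    have i1 := c.e b o (one o b e1)
    have i2 := c.e d o (one o d e2)
    exact ⟨e2.le, _, i1.2, c.fam.p3 b d _ i1.1 i2.1 ne, (c.fam.p1 _ _ i1.1).le⟩
  · intro o b
    by_cases hx : ∃ τ, τ / S = wn o ∧ h (cv o) τ ≤ h b τ
    · exact (cnt_mono fun d g => ⟨(c.e d o g.1).1, g.2.2⟩).trans
        (five c.na c.fam (cv o) hx.choose)
    · exact (cnt_mono fun d g => absurd g.2.1 hx).trans (five c.na c.fam (cv o) 0)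

end Pool.Agent.Lib.MP_65c801_co.W
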