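import Pool.Agent.Lib.MP_65c801_co.W.Rnd
import Pool.Agent.Lib.MP_65c801_co.W.Slab
import Pool.Agent.Lib.MP_65c801_co.W.Sts
import Pool.Agent.Lib.MP_65c801_co.W.Crs
import Pool.Agent.Lib.MP_65c801_co.W.IncG
import Pool.Agent.Lib.MP_65c801_co.W.J1
import Pool.Agent.Lib.MP_65c801_co.W.J2
import Pool.Agent.Lib.MP_65c801_co.W.Core
import Pool.Agent.Lib.MP_65c801_co.W.Case
import Pool.Agent.Lib.MP_65c801_co.W.Fam
import Pool.Agent.Lib.MP_65c801_co.W.Fin

/-! All steps together. -/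

namespace Pool.Agent.Lib.MP_65c801_co.W

open T U

theorem famAllN : FamNS :=
  have hG := incG rnd slab sts crs
  have h1 := j1N inc (i1 split) hG
  have hC := coreN id2 sign side stemN
  famN (noN (caseBN h1 hC) (caseAN h1 (j2N inc (i2 split) hG) hC))

end Pool.Agent.Lib.MP_65c801_co.W
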