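import Pool.Agent.Lib.MP_65c801_co.W.St

/-! Members with few crossing partners can be cut into blocks, by rounds of ranking. -/

namespace Pool.Agent.Lib.MP_65c801_co.W

open Finset Classical T U

namespace Rd

variable {V O : Type} [Fintype V] [Fintype O] {st : O → V → ℕ} {A Ex : O → V → V → Prop}
  {B : V → Prop} {Y : O → Prop} {κ s lam : ℝ}

lemma inv (S : Sts st A Ex) {p q : V}
    (hs : ∑ o, (if Y o then st o p else 0) ≤ ∑ o, (if Y o then st o q else 0))
    (nb : ¬ Crs A Y p q) : cnt (fun o => Y o ∧ st o q < st o p) ≤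
      cnt (fun o => Y o ∧ Ex o p q) + 2 * cnt (fun o => Y o ∧ Ex o q p) := by
  have c1 := cnt_nonneg (fun o => Y o ∧ Ex o p q)
  have c2 := cnt_nonneg (fun o => Y o ∧ Ex o q p)
  rcases not_and_or.1 nb with n | n
  · have : cnt (fun o => Y o ∧ st o q < st o p) ≤ cnt (fun o => Y o ∧ Ex o p q) :=
      cnt_mono fun o g => ⟨g.1, (S.lt o p q g.2).resolve_left fun a => n ⟨o, g.1, a⟩⟩
    linarith
  · have hs' : ∑ o, ((if Y o then st o p else 0 : ℕ) : ℝ) ≤
        ∑ o, ((if Y o then st o q else 0 : ℕ) : ℝ) := by exact_mod_cast hs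
    have : cnt (fun o => Y o ∧ st o q < st o p) +
        ∑ o, ((if Y o then st o q else 0 : ℕ) : ℝ) ≤
        2 * cnt (fun o => Y o ∧ Ex o q p) + ∑ o, ((if Y o then st o p else 0 : ℕ) : ℝ) := by
      simp only [cnt_eq_sum, mul_sum, ← sum_add_distrib]
      refine sum_le_sum fun o _ => ?_
      by_cases y : Y o
      · rcases lt_trichotomy (st o q) (st o p) with l | l | l
        · have : (st o q : ℝ) + 1 ≤ st o p := by exact_mod_cast l
          rw [if_pos ⟨y, l⟩, if_pos y, if_pos y]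
          split_ifs <;> linarith
        · rw [if_neg fun g => g.2.ne l, if_pos y, if_pos y, l]
          split_ifs <;> linarith
        · have g1 : Ex o q p := (S.lt o q p l).resolve_left fun a => n ⟨o, y, a⟩
          have a1 : (st o q : ℝ) ≤ 2 := by exact_mod_cast S.le o q
          have a2 : (0 : ℝ) ≤ st o p := Nat.cast_nonneg _
          rw [if_neg fun g => lt_asymm g.2 l, if_pos (And.intro y g1), if_pos y, if_pos y]
          linarith
      · simp [y]
    linarith

/-- one round -/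
lemma one (S : Sts st A Ex) (hk : ∀ b, B b → cnt (fun c => B c ∧ Crs A Y b c) ≤ κ)
    (l0 : 0 < lam) (hl : cnt B ≤ lam * s) :
    ∃ (ρ : V → ℕ) (G : V → O → Prop), (∀ b c, B b → B c → ρ b = ρ c → b = c) ∧
      (∀ b o, G b o → B b ∧ Y o ∧ st o b = 1) ∧
      ic st B Y ≤ cnt (fun e : V × O => G e.1 e.2) + 15 * s * cnt Y ∧
      ∀ o b c, G b o → G c o → (ρ c : ℝ) ≤ ρ b + (2 * κ + 2 * lam + 1) := by
  set σ : V → ℕ := fun b => ∑ o, (if Y o then st o b else 0) with hσ
  set k : V → ℕ ×ₗ Fin (Fintype.card V) := fun b => toLex (σ b, Fintype.equivFin V b) with hκ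
  have ki : ∀ b c, k b = k c → b = c := fun b c e =>
    (Fintype.equivFin V).injective (congrArg (fun z => (ofLex z).2) e)
  have km : ∀ b c, k b < k c → σ b ≤ σ c := fun b c e => Prod.Lex.monotone_fst _ _ e.le
  set I : V → V → O → Prop := fun p q o => B p ∧ B q ∧ k p < k q ∧ ¬ Crs A Y p q ∧
    Y o ∧ st o q < st o p with hI
  have g0 := cnt_nonneg Y
  have ex : cnt (fun z : (V × V) × O => B z.1.1 ∧ Y z.2 ∧ Ex z.2 z.1.1 z.1.2) ≤
      cnt B * cnt Y * 5 := by
    rw [← cnt_mul]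
    refine cnt_fib_le' (q := fun e : V × O => B e.1 ∧ Y e.2) (fun z => (z.1.1, z.2))
      (fun z g => ⟨g.1, g.2.1⟩) fun e _ => ?_
    refine le_trans (cnt_inj (fun z => z.1.2) ?_ ?_) (S.ex e.2 e.1)
    · rintro z ⟨g, rfl⟩; exact g.2.2
    · rintro z w ⟨-, rfl⟩ ⟨-, e2⟩ e3
      obtain ⟨a1, a2⟩ := Prod.mk.inj e2
      exact Prod.ext (Prod.ext a1.symm e3) a2.symm
  have tot : cnt (fun z : (V × V) × O => I z.1.1 z.1.2 z.2) ≤ 15 * (cnt B * cnt Y) := by
    have ex2 : cnt (fun z : (V × V) × O => B z.1.2 ∧ Y z.2 ∧ Ex z.2 z.1.2 z.1.1) ≤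
        cnt B * cnt Y * 5 :=
      le_trans (cnt_inj (fun z => ((z.1.2, z.1.1), z.2)) (fun z g => g) fun z w _ _ e => by
        simp only [Prod.mk.injEq] at e
        exact Prod.ext (Prod.ext e.1.2 e.1.1) e.2) ex
    have : cnt (fun z : (V × V) × O => I z.1.1 z.1.2 z.2) ≤
        cnt (fun z : (V × V) × O => B z.1.1 ∧ Y z.2 ∧ Ex z.2 z.1.1 z.1.2) +
        2 * cnt (fun z : (V × V) × O => B z.1.2 ∧ Y z.2 ∧ Ex z.2 z.1.2 z.1.1) := by
      rw [cnt_prod, cnt_prod, cnt_prod, mul_sum, ← sum_add_distrib]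
      refine sum_le_sum fun e _ => ?_
      by_cases c : B e.1 ∧ B e.2 ∧ k e.1 < k e.2 ∧ ¬ Crs A Y e.1 e.2
      · refine (cnt_mono fun o g => g.2.2.2.2).trans ((inv S (km _ _ c.2.2.1) c.2.2.2).trans
          (add_le_add (cnt_mono fun o g => ⟨c.1, g⟩)
            (mul_le_mul_of_nonneg_left (cnt_mono fun o g => ⟨c.2.1, g⟩) (by norm_num))))
      · rw [cnt_zero fun o g => c ⟨g.1, g.2.1, g.2.2.1, g.2.2.2.1⟩]
        exact add_nonneg (cnt_nonneg _) (mul_nonneg (by norm_num) (cnt_nonneg _))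
    linarith
  set J : V × O → V → Prop := fun e z => st e.2 e.1 = 1 ∧ (I e.1 z e.2 ∨ I z e.1 e.2) with hJ
  have tJ : cnt (fun z : (V × O) × V => J z.1 z.2) ≤ 15 * (cnt B * cnt Y) := by
    refine le_trans (cnt_inj (fun z => if k z.1.1 < k z.2 then ((z.1.1, z.2), z.1.2)
      else ((z.2, z.1.1), z.1.2)) (fun z g => ?_) fun z w gz gw e => ?_) tot
    · by_cases c : k z.1.1 < k z.2
      · simp only [if_pos c]
        exact g.2.resolve_right fun a => lt_asymm c a.2.2.1
      · simp only [if_neg c]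
        exact g.2.resolve_left fun a => c a.2.2.1
    · obtain ⟨⟨b, o⟩, x⟩ := z
      obtain ⟨⟨b', o'⟩, x'⟩ := w
      by_cases c : k b < k x <;> by_cases c' : k b' < k x' <;>
        simp only [c, c', if_true, if_false, Prod.mk.injEq] at e
      · obtain ⟨⟨rfl, rfl⟩, rfl⟩ := e; rfl
      · obtain ⟨⟨rfl, rfl⟩, rfl⟩ := e
        have a := (gz.2.resolve_right fun a => lt_asymm c a.2.2.1).2.2.2.2.2
        have a1 : st o b = 1 := gz.1
        have a2 : st o x = 1 := gw.1
        simp only [a1, a2] at a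
        exact absurd a (lt_irrefl _)
      · obtain ⟨⟨rfl, rfl⟩, rfl⟩ := e
        have a := (gw.2.resolve_right fun a => lt_asymm c' a.2.2.1).2.2.2.2.2
        have a1 : st o b = 1 := gz.1
        have a2 : st o x = 1 := gw.1
        simp only [a1, a2] at a
        exact absurd a (lt_irrefl _)
      · obtain ⟨⟨rfl, rfl⟩, rfl⟩ := e; rfl
  have v : cnt (fun e => lam < cnt (J e)) ≤ 15 * s * cnt Y := by
    have := (cnt_pair_ge (p := fun z : (V × O) × V => J z.1 z.2) (K := lam)
      (q := fun e => lam < cnt (J e)) fun e g => g.le).trans tJ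
    refine le_of_mul_le_mul_right (this.trans ?_) l0
    calc _ ≤ 15 * (lam * s * cnt Y) := by gcongr
      _ = _ := by ring
  have rc : ∀ b, (((univ.filter fun z => B z ∧ k z < k b).card : ℕ) : ℝ) =
      cnt fun z => B z ∧ k z < k b := fun b => by unfold cnt; congr
  have lt : ∀ b c, B b → k b < k c → (univ.filter fun z => B z ∧ k z < k b).card <
      (univ.filter fun z => B z ∧ k z < k c).card := fun b c g l =>
    card_lt_card ⟨fun z hz => by
      simp only [mem_filter, mem_univ, true_and] at hz ⊢; exact ⟨hz.1, hz.2.trans l⟩,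
      fun s => by simpa using s (by simp [g, l] : b ∈ _)⟩
  refine ⟨fun b => (univ.filter fun z => B z ∧ k z < k b).card, fun b o => (B b ∧ Y o ∧
    st o b = 1) ∧ cnt (J (b, o)) ≤ lam, fun b c g g2 e => ?_, fun _ _ g => g.1, ?_,
    fun o b c g g2 => ?_⟩
  · rcases lt_trichotomy (k b) (k c) with l | l | l
    · exact absurd e (lt b c g l).ne
    · exact ki _ _ l
    · exact absurd e (lt c b g2 l).ne'
  · have := cnt_le_add (p := fun e : V × O => B e.1 ∧ Y e.2 ∧ st e.2 e.1 = 1)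
      (q := fun e => (B e.1 ∧ Y e.2 ∧ st e.2 e.1 = 1) ∧ cnt (J (e.1, e.2)) ≤ lam)
      (r := fun e => lam < cnt (J e))
      fun e g => (le_or_gt _ lam).elim (fun a => Or.inl ⟨g, a⟩) Or.inr
    unfold ic
    linarith
  · obtain ⟨⟨b1, y, e1⟩, g⟩ := g
    obtain ⟨⟨c1, -, e2⟩, g2⟩ := g2
    rw [rc, rc]
    have a1 := cnt_le_add3 (p := fun z => B z ∧ k z < k c) (q := fun z => B z ∧ k z < k b)
      (r := fun z => z = b) (s := fun z => ((B z ∧ Crs A Y b z) ∨ J (b, o) z) ∨
        (B z ∧ Crs A Y c z) ∨ J (c, o) z) fun z hz => by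
        rcases lt_trichotomy (k z) (k b) with l | l | l
        · exact Or.inl ⟨hz.1, l⟩
        · exact Or.inr (Or.inl (ki _ _ l))
        refine Or.inr (Or.inr ?_)
        by_cases d : Crs A Y b z
        · exact Or.inl (Or.inl ⟨hz.1, d⟩)
        by_cases d2 : Crs A Y c z
        · exact Or.inr (Or.inl ⟨hz.1, d2⟩)
        rcases lt_trichotomy (st o z) 1 with m | m | m
        · exact Or.inl (Or.inr ⟨e1, Or.inl ⟨b1, hz.1, l, d, y, e1 ▸ m⟩⟩)
        · have n : b ≠ z := fun e => l.ne (e ▸ rfl)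
          exact absurd ⟨⟨o, y, S.eq o b z n e1 m⟩, o, y, S.eq o z b n.symm m e1⟩ d
        · exact Or.inr (Or.inr ⟨e2, Or.inr ⟨hz.1, c1, hz.2, fun a => d2 ⟨a.2, a.1⟩, y, e2 ▸ m⟩⟩)
    have a2 := cnt_or (fun z => (B z ∧ Crs A Y b z) ∨ J (b, o) z)
      fun z => (B z ∧ Crs A Y c z) ∨ J (c, o) z
    have a3 := cnt_or (fun z => B z ∧ Crs A Y b z) (J (b, o))
    have a4 := cnt_or (fun z => B z ∧ Crs A Y c z) (J (c, o))
    have a5 : cnt (fun z => z = b) ≤ 1 := cnt_le_one fun _ _ a c => a.trans c.symm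
    linarith [hk b b1, hk c c1]

end Rd

theorem rnd : RndS := by
  intro V O _ _ st A Ex K p κ s S k0 p0 hK s8 hR j
  induction j with
  | zero =>
    intro B Y _ hB
    simpa using hR B Y (by simpa using hB)
  | succ j ih =>
    intro B Y hk hB
    set u := K * (s / 8) ^ j with hu
    have q1 : 1 ≤ (s / 8) ^ j := one_le_pow₀ (by linarith)
    have uK : K ≤ u := le_mul_of_one_le_right (by linarith) q1
    obtain ⟨ρ, G, ri, sub, hG, near⟩ := Rd.one (lam := u / 8) (s := s) S hk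
      (by linarith) (hB.trans (le_of_eq (by rw [hu]; ring)))
    set l := ⌊u / 2⌋₊ with hl
    have l1 : (l : ℝ) ≤ u / 2 := Nat.floor_le (by linarith)
    have l2 : u / 2 < l + 1 := Nat.lt_floor_add_one _
    have l0 : 0 < l := Nat.floor_pos.2 (by linarith)
    have : ∀ o, ∃ r, ∀ b, G b o → ρ b / l = r ∨ ρ b / l = r + 1 := fun o => by
      by_cases c : ∃ b, G b o
      · obtain ⟨b0, g0, hm⟩ := exists_min_image (univ.filter fun b => G b o) ρ
          ⟨c.choose, by simpa using c.choose_spec⟩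
        refine ⟨ρ b0 / l, fun b g => ?_⟩
        have a1 := Nat.div_le_div_right (c := l) (hm b (by simpa using g))
        have a2 : ρ b ≤ ρ b0 + l := by
          have := near o b0 b (by simpa using g0) g
          exact_mod_cast (by linarith : (ρ b : ℝ) ≤ ρ b0 + l)
        have a3 := Nat.div_le_div_right (c := l) a2
        rw [Nat.add_div_right _ l0] at a3
        omega
      · exact ⟨0, fun b g => absurd ⟨b, g⟩ c⟩
    choose r hr using this
    have bk : ∀ i, cnt (fun b => B b ∧ ρ b / l = i) ≤ l := fun i => by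
      have c1 : cnt (fun _ : Fin l => True) = l := by simp [cnt]
      rw [← c1]
      refine cnt_inj (fun b => ⟨ρ b % l, Nat.mod_lt _ l0⟩) (fun _ _ => trivial)
        fun x y hx' hy e => ri x y hx'.1 hy.1 ?_
      rw [← Nat.div_add_mod (ρ x) l, ← Nat.div_add_mod (ρ y) l, Fin.mk.inj e, hx'.2, hy.2]
    set T := univ.image r with hT
    have two : ∀ i, cnt (fun b => B b ∧ (ρ b / l = i ∨ ρ b / l = i + 1)) ≤
        cnt (fun b => B b ∧ ρ b / l = i) + cnt (fun b => B b ∧ ρ b / l = i + 1) := fun i =>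
      cnt_le_add fun b g => g.2.imp (fun e => ⟨g.1, e⟩) fun e => ⟨g.1, e⟩
    have fs : ∀ f : ℕ → ℕ, Function.Injective f →
        ∑ i ∈ T, cnt (fun b => B b ∧ ρ b / l = f i) ≤ cnt B := fun f hf => by
      simp only [cnt_eq_sum]
      rw [sum_comm]
      refine sum_le_sum fun b _ => ?_
      by_cases c : ∃ x ∈ T, B b ∧ ρ b / l = f x
      · obtain ⟨x, hx, c⟩ := c
        refine (sum_eq_single x (fun y _ n => ?_) fun n => absurd hx n).le.trans ?_
        · rw [if_neg]
          exact fun g => n (hf (g.2.symm.trans c.2))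
        · rw [if_pos c, if_pos c.1]
      · refine (sum_eq_zero fun x hx => ?_).le.trans ?_
        · rw [if_neg]
          exact fun g => c ⟨x, hx, g⟩
        · split_ifs <;> norm_num
    have f1 := fs id Function.injective_id
    have f2 := fs (· + 1) (add_left_injective 1)
    have sY : ∑ i ∈ T, cnt (fun o => Y o ∧ r o = i) = cnt Y :=
      (cnt_fib Y r T fun o _ => mem_image_of_mem _ (mem_univ _)).symm
    have sG := cnt_fib (fun e : V × O => G e.1 e.2) (fun e => r e.2) T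
      fun e _ => mem_image_of_mem _ (mem_univ _)
    have pc : ∀ i ∈ T, cnt (fun e : V × O => G e.1 e.2 ∧ r e.2 = i) ≤
        (15 * j * s + p) * cnt (fun o => Y o ∧ r o = i) + 2 ^ j * p *
          (cnt (fun b => B b ∧ ρ b / l = i) + cnt (fun b => B b ∧ ρ b / l = i + 1)) := by
      intro i _
      have := ih (fun b => B b ∧ (ρ b / l = i ∨ ρ b / l = i + 1)) (fun o => Y o ∧ r o = i)
        (fun b g => (cnt_mono fun z gz => ⟨gz.1.1, gz.2.1.imp fun o a => ⟨a.1.1, a.2⟩,
          gz.2.2.imp fun o a => ⟨a.1.1, a.2⟩⟩).trans (hk b g.1))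
        (by linarith [two i, bk i, bk (i + 1)])
      have m : cnt (fun e : V × O => G e.1 e.2 ∧ r e.2 = i) ≤
          ic st (fun b => B b ∧ (ρ b / l = i ∨ ρ b / l = i + 1)) (fun o => Y o ∧ r o = i) :=
        cnt_mono fun e g => ⟨⟨(sub _ _ g.1).1, g.2 ▸ hr _ _ g.1⟩, ⟨(sub _ _ g.1).2.1, g.2⟩,
          (sub _ _ g.1).2.2⟩
      have t := mul_le_mul_of_nonneg_left (two i) (by positivity : (0:ℝ) ≤ 2 ^ j * p)
      linarith
    have sm := sum_le_sum pc
    rw [← sG, sum_add_distrib, ← mul_sum, ← mul_sum, sY, sum_add_distrib] at sm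
    have t := mul_le_mul_of_nonneg_left (add_le_add f1 f2) (by positivity : (0:ℝ) ≤ 2 ^ j * p)
    simp only [id] at t
    push_cast
    rw [pow_succ]
    linarith

end Pool.Agent.Lib.MP_65c801_co.W
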