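import Pool.Agent.Lib.MP_65c801_co.W.St

/-! The new incidence bound for small average groups follows from the old one. -/

namespace Pool.Agent.Lib.MP_65c801_co.W

open Finset Classical T U

theorem small (inc : IncS) {V K : Type} [Fintype V] {H : V → V → Prop} {κ : V → V → K} {L : ℕ}
    {P M e : ℝ} (ok : IncOK H κ (216 * (L:ℝ) ^ 2) P) (L0 : 4096 ≤ L) (P1 : 1 ≤ P) (M0 : 0 < M)
    (G : Finset (V × K)) (U : V → Prop)
    (he : e = ed (fun c y => H c y ∧ (c, κ c y) ∈ G ∧ U y)) (eg : e ≤ G.card * P)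
    (hs : e * M ≤ G.card * P ^ 3) :
    e ≤ (L:ℝ) ^ 4 * G.card ∨ e ^ 4 * M ≤ (L:ℝ) ^ 4 * P ^ 4 * cnt U ^ 2 * (G.card:ℝ) ^ 3 := by
  have L1 : (4096:ℝ) ≤ L := by exact_mod_cast L0
  have L2 : (3456:ℝ) ≤ (L:ℝ) ^ 2 := by nlinarith
  have e0 : 0 ≤ e := he ▸ cnt_nonneg _
  have fin : 3456 * (L:ℝ) ^ 2 * P ^ 4 * cnt U ^ 2 * (G.card:ℝ) ^ 3 ≤
      (L:ℝ) ^ 4 * P ^ 4 * cnt U ^ 2 * (G.card:ℝ) ^ 3 := by
    rw [show (L:ℝ) ^ 4 = (L:ℝ) ^ 2 * (L:ℝ) ^ 2 by ring]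
    gcongr
  rcases inc V K H κ _ P ok (by positivity) P1 G U e he with c | c | c
  · exact Or.inl (c.trans (by gcongr; nlinarith))
  · refine Or.inr (le_trans ?_ fin)
    calc e ^ 4 * M = e ^ 2 * e * (e * M) := by ring
      _ ≤ 4 * (216 * (L:ℝ) ^ 2) * cnt U ^ 2 * G.card * (G.card * P) * (G.card * P ^ 3) := by
        gcongr
      _ = 864 * (L:ℝ) ^ 2 * P ^ 4 * cnt U ^ 2 * (G.card:ℝ) ^ 3 := by ring
      _ ≤ _ := by gcongr; norm_num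
  · refine Or.inr (le_trans ?_ fin)
    calc e ^ 4 * M = e ^ 3 * (e * M) := by ring
      _ ≤ 16 * (216 * (L:ℝ) ^ 2) * (G.card:ℝ) ^ 2 * cnt U ^ 2 * P * (G.card * P ^ 3) := by gcongr
      _ = _ := by ring

end Pool.Agent.Lib.MP_65c801_co.W
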