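import Pool.Agent.Lib.MP_65c801_co.U.All

/-! Exponents above `7 / 5` for families of lenses: definitions and the statements of the steps. -/

namespace Pool.Agent.Lib.MP_65c801_co.W

open Finset Classical T U

section Defs

variable {V O α K : Type} [Fintype V] [Fintype O] [LinearOrder α]

/-- incidences (state one) between members in `B` and centres in `Y` -/
noncomputable def ic (st : O → V → ℕ) (B : V → Prop) (Y : O → Prop) : ℝ :=
  cnt fun z : V × O => B z.1 ∧ Y z.2 ∧ st z.2 z.1 = 1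

/-- each of two members is above the other one at some centre in `Y` -/
def Crs (A : O → V → V → Prop) (Y : O → Prop) (b c : V) : Prop :=
  (∃ o, Y o ∧ A o b c) ∧ ∃ o, Y o ∧ A o c b

/-- states of members at centres, with witnesses `A` and few exceptions `Ex` -/
structure Sts (st : O → V → ℕ) (A Ex : O → V → V → Prop) : Prop where
  le : ∀ o b, st o b ≤ 2
  lt : ∀ o b c, st o c < st o b → A o b c ∨ Ex o b c
  eq : ∀ o b c, b ≠ c → st o b = 1 → st o c = 1 → A o b c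
  ex : ∀ o b, cnt (fun c => Ex o b c) ≤ 5

/-- the state of a lower curve at a centre -/
noncomputable def gst (h : V → ℕ → α) (S : ℕ) (cv : O → V) (wn : O → ℕ) (I : V → O → Prop)
    (o : O) (b : V) : ℕ :=
  if I b o then 1 else if ∀ τ, τ / S = wn o → h b τ < h (cv o) τ then 0 else 2

/-- `b` is above `c` at the centre `o` -/
def gA (h : V → ℕ → α) (S : ℕ) (cv : O → V) (wn : O → ℕ) (I : V → O → Prop)
    (o : O) (b c : V) : Prop :=
  gst h S cv wn I o c ≤ 1 ∧ ∃ τ, τ / S = wn o ∧ h c τ < h (cv o) τ ∧ h (cv o) τ ≤ h b τ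

/-- centres are groups of edges at upper curves inside windows, with an order by keys -/
structure Cen (h : V → ℕ → α) (H : V → V → Prop) (t : V → V → ℕ) (S : ℕ) (cv : O → V)
    (wn key : O → ℕ) (I : V → O → Prop) : Prop where
  na : NoAlt h
  inj : Inj h
  fam : Fam h H t
  S0 : 0 < S
  e : ∀ b o, I b o → H b (cv o) ∧ t b (cv o) / S = wn o
  u : ∀ b o o', I b o → I b o' → cv o = cv o' → o = o'
  sep : ∀ o o', key o < key o' → wn o < wn o' ∨ (wn o = wn o' ∧ Anti h S (wn o) (cv o) (cv o'))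

/-- subgraphs with a small side are sparse -/
def Rc (E : V → V → Prop) (K p : ℝ) : Prop :=
  ∀ (H : V → V → Prop) (A B : V → Prop), (∀ a y, H a y → E a y ∧ A a ∧ B y) →
    (cnt A ≤ K ∨ cnt B ≤ K) → ed H ≤ (cnt A + cnt B) * p

/-- the data for the new incidence bound -/
structure Rg (E : V → V → Prop) (L : ℕ) (P M : ℝ) : Prop where
  L0 : 4096 ≤ L
  cb : (Fintype.card V : ℝ) ^ 3 < 2 ^ L
  P1 : 1 ≤ P
  M0 : 0 < M
  rc : ∀ x : ℝ, 0 < x → x ≤ 1 → Rc E (M * x ^ 3) (x * P / (L:ℝ) ^ 3)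
  rn : (Fintype.card V : ℝ) * ((L:ℝ) ^ 3 * M) ^ 10 ≤ P ^ 30

/-- the new incidence bound for sets of groups that satisfy `Gs` -/
def IncN (H : V → V → Prop) (κ : V → V → K) (Gs : V × K → Prop) (L : ℕ) (P M : ℝ) : Prop :=
  ∀ (G : Finset (V × K)) (U : V → Prop) (e : ℝ), (∀ γ ∈ G, Gs γ) →
    e = ed (fun c y => H c y ∧ (c, κ c y) ∈ G ∧ U y) →
    e ≤ (L:ℝ) ^ 4 * G.card ∨ e ≤ 4 * P * cnt U ∨
      e ^ 4 * M ≤ (L:ℝ) ^ 4 * P ^ 4 * cnt U ^ 2 * (G.card:ℝ) ^ 3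

/-- the function `c` is dominated by incidences of weighted groups -/
def StemN (c : V → ℝ) (x : V) (L : ℕ) (D σ P M : ℝ) : Prop :=
  ∃ (K : Type) (H : V → V → Prop) (κ : V → V → K) (Gs : V × K → Prop) (gr : Om V → V × K)
    (mm : Om V → ℝ) (ν S : ℝ),
    IncN H κ Gs L P M ∧ (∀ o, mm o ≠ 0 → Gs (gr o)) ∧ 0 < ν ∧ 0 ≤ S ∧ S ≤ σ * ν ∧ S < 2 ^ L ∧
    (∀ o, mm o = 0 ∨ 1 ≤ mm o) ∧ (∀ o, mm o ≤ S) ∧ ∑ o, mm o ≤ D * S ∧
    (∀ o o', mm o ≠ 0 → mm o' ≠ 0 → gr o = gr o' → o = o') ∧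
    ∀ y, y ≠ x → ν * c y ≤ ∑ o, if H (gr o).1 y ∧ κ (gr o).1 y = (gr o).2 then mm o else 0

/-- the numerical conditions -/
structure Nu (Z P d M : ℝ) : Prop where
  n1 : Z * P ≤ d ^ 2 * M
  n2 : Z * P ^ 2 ≤ d ^ 2 * M ^ 2
  n3 : Z ^ 2 * P ^ 5 ≤ d ^ 5 * M ^ 2

/-- the global data for walks of length `2 j + 1` and `2 j + 2` -/
structure Gm (E : V → V → Prop) (L θ j : ℕ) (N m d M : ℝ) : Prop where
  jL : j ≤ L
  j1 : 1 ≤ j
  cN : (Fintype.card V : ℝ) ≤ N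
  N0 : 0 < N
  M0 : 0 < M
  pd : (L:ℝ) ^ 38 * θ ≤ d
  nd : N * d ≤ L * m
  pw : 2 * ((L:ℝ) ^ 38 * θ) ^ (2 * j + 2) < 2 ^ L
  ex : ExpOK E L (2 * j + 1) ((L:ℝ) ^ 38 * θ) (1 / (L:ℝ) ^ (89 * j + 86)) M
  nm : Nu ((L:ℝ) ^ (356 * j + 217) * N) ((L:ℝ) ^ 38 * θ) d M
  rg : Rg E L ((L:ℝ) ^ 38 * θ) M

end Defs

/-- rounds of rank blocks -/
def RndS : Prop := ∀ (V O : Type) [Fintype V] [Fintype O] (st : O → V → ℕ)
  (A Ex : O → V → V → Prop) (K p κ s : ℝ), Sts st A Ex → 0 ≤ κ → 0 ≤ p → 8 * κ + 8 ≤ K → 8 ≤ s →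
  (∀ B Y, cnt B ≤ K → ic st B Y ≤ (cnt B + cnt Y) * p) → ∀ (j : ℕ) (B : V → Prop) (Y : O → Prop),
  (∀ b, B b → cnt (fun c => B c ∧ Crs A Y b c) ≤ κ) → cnt B ≤ K * (s / 8) ^ j →
  ic st B Y ≤ 15 * j * s * cnt Y + (2 ^ j * cnt B + cnt Y) * p

/-- dyadic intervals of keys -/
def SlabS : Prop := ∀ (V O : Type) [Fintype V] [Fintype O] (st : O → V → ℕ)
  (A : O → V → V → Prop) (key : O → ℕ) (L : ℕ) (P κ s a c p : ℝ) (U : V → Prop),
  (∀ o, key o < 2 ^ L) → (∀ b k, cnt (fun o => st o b = 1 ∧ key o = k) ≤ P) →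
  (∀ (i : ℕ) b b' (T : Finset ℕ), (∀ σ ∈ T, Crs A (fun o => key o / 2 ^ i = σ) b b') →
    T.card ≤ 84) → 0 < κ → 0 < s → s ≤ P → 0 ≤ a → 0 ≤ c → 0 ≤ p →
  (∀ (B : V → Prop) (Y : O → Prop), (∀ b, B b → cnt (fun c => B c ∧ Crs A Y b c) ≤ κ) →
    ic st B Y ≤ a * cnt Y + (c * cnt B + cnt Y) * p) →
  ic st U (fun _ => True) ≤ cnt U * s + (L + 1) * (168 * P * cnt U ^ 2 / κ +
    a * Fintype.card O + (c * (ic st U (fun _ => True) / s) + Fintype.card O) * p)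

/-- the geometric states have few exceptions -/
def StsS : Prop := ∀ (V O α : Type) [Fintype V] [Fintype O] [LinearOrder α] (h : V → ℕ → α)
  (H : V → V → Prop) (t : V → V → ℕ) (S : ℕ) (cv : O → V) (wn key : O → ℕ) (I : V → O → Prop),
  Cen h H t S cv wn key I → ∃ Ex, Sts (gst h S cv wn I) (gA h S cv wn I) Ex

/-- two members cross in few intervals of keys -/
def CrsS : Prop := ∀ (V O α : Type) [Fintype V] [Fintype O] [LinearOrder α] (h : V → ℕ → α)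
  (H : V → V → Prop) (t : V → V → ℕ) (S : ℕ) (cv : O → V) (wn key : O → ℕ) (I : V → O → Prop),
  Cen h H t S cv wn key I → ∀ (i : ℕ) b b' (T : Finset ℕ),
  (∀ σ ∈ T, Crs (gA h S cv wn I) (fun o => key o / 2 ^ i = σ) b b') → T.card ≤ 84

/-- the incidence bound for large groups -/
def IncGS : Prop := ∀ (V O α : Type) [Fintype V] [Fintype O] [LinearOrder α] (h : V → ℕ → α)
  (H : V → V → Prop) (t : V → V → ℕ) (S L : ℕ) (cv : O → V) (wn key : O → ℕ) (I : V → O → Prop)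
  (P M e : ℝ) (U : V → Prop), Cen h H t S cv wn key I → Rg H L P M → (∀ o, key o < 2 ^ L) →
  (∀ b k, cnt (fun o => I b o ∧ key o = k) ≤ P) → (∀ o, cnt (fun b => I b o) ≤ P) →
  e = cnt (fun z : V × O => U z.1 ∧ I z.1 z.2) → (L:ℝ) ^ 3 * Fintype.card O < e →
  Fintype.card O * P ^ 3 < e * M →
  e ≤ 2 * P * cnt U ∨ e ^ 4 * M ≤ (L:ℝ) ^ 3 * P ^ 4 * cnt U ^ 2 * (Fintype.card O : ℝ) ^ 3

/-- groups at the lower curves -/
def J1S : Prop := ∀ (V α K : Type) [Fintype V] [LinearOrder α] (h : V → ℕ → α)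
  (H : V → V → Prop) (t : V → V → ℕ) (κ : V → V → K) (S L : ℕ) (P M : ℝ), NoAlt h → Inj h →
  Fam h H t → 0 < S → (∀ a y, H a y → t a y < 2 ^ L) →
  (∀ a y z, H a y → H a z → κ a y = κ a z → t a y / S = t a z / S) →
  (∀ y w, cnt (fun a => H a y ∧ t a y / S = w) ≤ P) →
  (∀ a k, cnt (fun y => H a y ∧ κ a y = k) ≤ P) → Rg H L P M → IncN H κ (fun _ => True) L P M

/-- groups at the upper curves that lie in the cells of one lower curve -/
def J2S : Prop := ∀ (V α : Type) [Fintype V] [LinearOrder α] (h : V → ℕ → α)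
  (H : V → V → Prop) (t : V → V → ℕ) (S L : ℕ) (P M : ℝ) (row col : V → ℕ → ℕ) (a : V), NoAlt h →
  Inj h → Fam h H t → 0 < S → (∀ a y, H a y → t a y < 2 ^ L) → Stair h H t S P row col →
  (∀ y w, cnt (fun a => H a y ∧ t a y / S = w) ≤ P) → Rg H L P M →
  IncN (fun y a => H a y) (fun y a => t a y / S)
    (fun γ => ∃ y, H a y ∧ cl t S row col a y = (γ.2, row γ.1 γ.2, col γ.1 γ.2)) L P M

/-- doubly degenerate four-cycles -/
def StemNS : Prop := ∀ (V : Type) [Fintype V] (c : V → ℝ) (x : V) (L : ℕ) (D σ P M k Y : ℝ),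
  4096 ≤ L → (∀ y, c y = 0 ∨ 1 ≤ c y) → (∀ y, c y ≤ D) →
  (∀ y, c y < 2 ^ L) → ∑ y, c y ≤ 2 * D * k → 1 ≤ P → 0 ≤ σ → σ * P ≤ k → 0 ≤ Y → 0 < M → M ≤ D →
  16 * (L:ℝ) ^ 8 * D ^ 3 * k ^ 4 ≤ Y ^ 2 * M → StemN c x L D σ P M →
  ∑ y, (if y = x then 0 else c y ^ 2) ≤ 4 * L * (2 * (L:ℝ) ^ 5 * D ^ 2 * σ + Y)

/-- a dense graph of lenses with small groups does not exist -/
def CoreNS : Prop := ∀ (V α K : Type) [Fintype V] [LinearOrder α] (h : V → ℕ → α)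
  (Γ : V → V → Prop) (lab : V → V → ℕ) (k1 k2 : V → V → K) (S L : ℕ) (N X P d σ M : ℝ), NoAlt h →
  Inj h → 0 < S → 4096 ≤ L → (Fintype.card V : ℝ) ^ 3 < 2 ^ L → (Fintype.card V : ℝ) ≤ N →
  0 < N → 1 ≤ X → 1 ≤ P → P ≤ d → 0 < M → M ≤ σ * P → Nu ((L:ℝ) ^ 9 * X ^ 4 * N) P d M →
  N * (d * σ) ≤ X * ed Γ →
  (∀ a b, Γ a b → Lens h S (lab a b) a b) → (∀ a b, Γ a b → lab a b < 2 ^ L) →
  (∀ a, cnt (fun x => Γ a x) ≤ d * σ) → (∀ x, cnt (fun a => Γ a x) ≤ d * σ) →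
  (∀ a x y, Γ a x → Γ a y → lab a x = lab a y → ¬ Anti h S (lab a x) x y →
    ¬ Anti h S (lab a x) y x → k1 a x = k1 a y ∨ k2 a x = k2 a y) →
  (∀ a u, cnt (fun x => Γ a x ∧ k1 a x = u) ≤ σ * P) →
  (∀ a u, cnt (fun x => Γ a x ∧ k2 a x = u) ≤ σ * P) →
  (∀ x u, cnt (fun a => Γ a x ∧ lab a x = u) ≤ σ * P) →
  (∀ x, StemN (cc Γ k1 k2 x) x L (d * σ) σ P M) →
  (∀ a, StemN (cc (fun x a => Γ a x) (fun x a => lab a x) (fun x a => lab a x) a) a L (d * σ) σ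
    P M) → False

/-- the case of the staircase -/
def CaseANS : Prop := ∀ (V α : Type) [Fintype V] [LinearOrder α] (h : V → ℕ → α)
  (H : V → V → Prop) (t : V → V → ℕ) (S' R L θ j : ℕ) (N m d M : ℝ) (row col : V → ℕ → ℕ),
  Ct h H t L θ → Sq H t S' R L θ m d → Tu h H t (S' * R) L θ m row col →
  Gm H L θ j N m d M → False

/-- the case of the boxes -/
def CaseBNS : Prop := ∀ (V α K : Type) [Fintype V] [LinearOrder α] (h : V → ℕ → α)
  (E : V → V → Prop) (t : V → V → ℕ) (S' R L θ j : ℕ) (N m d M : ℝ) (H0 H1 : V → V → Prop)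
  (κ : V → V → K) (φ : V → ℕ → ℕ × ℕ), Ct h E t L θ → Sq E t S' R L θ m d →
  Bx h E t (S' * R) L θ m H0 H1 κ φ → Gm E L θ j N m d M → False

/-- dense regular families do not exist -/
def NoNS : Prop := ∀ (V α : Type) [Fintype V] [LinearOrder α] (h : V → ℕ → α)
  (E : V → V → Prop) (t : V → V → ℕ) (L θ j : ℕ) (N d M : ℝ), Ct h E t L θ →
  (∀ a, cnt (fun y => E a y) ≤ d) → (∀ y, cnt (fun a => E a y) ≤ d) →
  Gm E L θ j N (ed E) d M → False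

/-- the bound for all exponents above `7 / 5` -/
def FamNS : Prop := ∀ β : ℝ, 7 / 5 < β → ∃ J c : ℕ, FamW β J c

section Tools

variable {V α : Type} [Fintype V] [LinearOrder α] {F E : V → V → Prop} {L θ j : ℕ}
  {N m d M P K p : ℝ}

lemma Rc.mono (r : Rc E K p) (hF : ∀ a y, F a y → E a y) : Rc F K p :=
  fun H A B g => r H A B fun a y e => ⟨hF a y (g a y e).1, (g a y e).2⟩

lemma Rc.flip (r : Rc E K p) : Rc (fun y a => E a y) K p := fun H A B g k => by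
  rw [← ed_flip, add_comm]
  exact r _ B A (fun a y e => ⟨(g y a e).1, (g y a e).2.2, (g y a e).2.1⟩) k.symm

lemma Rg.mono (r : Rg E L P M) (hF : ∀ a y, F a y → E a y) : Rg F L P M :=
  ⟨r.L0, r.cb, r.P1, r.M0, fun x a b => (r.rc x a b).mono hF, r.rn⟩

lemma Rg.flip (r : Rg E L P M) : Rg (fun y a => E a y) L P M :=
  ⟨r.L0, r.cb, r.P1, r.M0, fun x a b => (r.rc x a b).flip, r.rn⟩

lemma Gm.mono (g : Gm E L θ j N m d M) (hF : ∀ a y, F a y → E a y) : Gm F L θ j N m d M := by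
  obtain ⟨Kq, Φ, a1, a2, a3, a4, a5⟩ := g.ex
  exact ⟨g.jL, g.j1, g.cN, g.N0, g.M0, g.pd, g.nd, g.pw,
    ⟨Kq, Φ, a1, a2, a3, a4, fun i hi => ⟨(a5 i hi).1.mono hF, (a5 i hi).2⟩⟩, g.nm, g.rg.mono hF⟩

lemma Gm.flip (g : Gm E L θ j N m d M) : Gm (fun y a => E a y) L θ j N m d M := by
  obtain ⟨Kq, Φ, a1, a2, a3, a4, a5⟩ := g.ex
  exact ⟨g.jL, g.j1, g.cN, g.N0, g.M0, g.pd, g.nd, g.pw,
    ⟨Kq, Φ, a1, a2, a3, a4, fun i hi => ⟨(a5 i hi).1.flip, (a5 i hi).2⟩⟩, g.nm, g.rg.flip⟩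

end Tools

theorem noN (h3 : CaseBNS) (h6 : CaseANS) : NoNS := by
  have key : ∀ (V α : Type) [Fintype V] [LinearOrder α] (h : V → ℕ → α) (E : V → V → Prop)
      (t : V → V → ℕ) (S' R L θ j : ℕ) (N m d M : ℝ), Ct h E t L θ → Sq E t S' R L θ m d →
      Gm E L θ j N m d M → m ≤ 4 * (L:ℝ) ^ 2 * ed E → False := by
    intro V α _ _ h E t S' R L θ j N m d M c s g hm
    rcases boxW V α h E t (S' * R) L θ m c hm with ⟨F, sub, hF, few⟩ | ⟨H0, H1, κ, φ, b⟩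
    · obtain ⟨H, row, col, sub', tb⟩ :=
        tubeW V α h F t S' R L θ m d (c.mono sub) (s.mono sub) hF few
      exact h6 V α h H t S' R L θ j N m d M row col ((c.mono sub).mono sub')
        ((s.mono sub).mono sub') tb ((g.mono sub).mono sub')
    · exact h3 V α _ h E t S' R L θ j N m d M H0 H1 κ φ c s b g
  intro V α _ _ h E t L θ j N d M c dL dU g
  rcases scaleW V α h E t L θ N d c dL dU g.cN g.pd g.nd with
    ⟨F, S', R, sub, s, hm⟩ | ⟨F, S', R, sub, s, hm⟩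
  · exact key V α h F t S' R L θ j N _ d M (c.mono sub) s (g.mono sub) hm
  · exact key V αᵒᵈ _ F _ S' R L θ j N _ d M (c.flip.mono sub) s (g.flip.mono sub) hm

end Pool.Agent.Lib.MP_65c801_co.W
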